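import Mathlib

/-!
# Abstract cut systems

The labels of a tree of maximum degree at most `r` are cut by its edges; the family of the two
sides of all edges is a *cut system*.  This file contains the purely combinatorial part of the
lower bound for the simultaneous separation by three trees.
-/

namespace Pool.Agent.Helper33

open Finset

/-- `𝒞` is closed under complement and, whenever `P` holds for at least one side of each cut, there
are at most `r` disjoint members of `𝒞` satisfying `P` that cover all labels but at most one. -/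
def CutSystem (r n : ℕ) (𝒞 : Set (Finset (Fin n))) : Prop :=
  (∀ A ∈ 𝒞, Aᶜ ∈ 𝒞) ∧
  ∀ P : Finset (Fin n) → Prop, (∀ A ∈ 𝒞, P A ∨ P Aᶜ) →
    ∃ S : Finset (Finset (Fin n)), S.card ≤ r ∧ (∀ A ∈ S, A ∈ 𝒞 ∧ P A) ∧
      ∀ X : Finset (Fin n), ∑ A ∈ S, (X ∩ A).card ≤ X.card ∧
        X.card ≤ ∑ A ∈ S, (X ∩ A).card + 1

lemma card_split {n : ℕ} (X C : Finset (Fin n)) : (X ∩ C).card + (X ∩ Cᶜ).card = X.card := by
  rw [← Finset.card_union_of_disjoint]
  · congr 1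
    ext x
    simp only [Finset.mem_union, Finset.mem_inter, Finset.mem_compl]
    tauto
  · rw [Finset.disjoint_left]
    intro x hx hx'
    simp only [Finset.mem_inter, Finset.mem_compl] at hx hx'
    exact hx'.2 hx.2

lemma third_tree {r n t : ℕ} {𝒞 : Set (Finset (Fin n))} (hr : 2 ≤ r) (ht : 1 ≤ t)
    (h : CutSystem r n 𝒞) (X Y : Finset (Fin n)) (hX : r * t ≤ X.card) (hY : 2 * t ≤ Y.card) :
    ∃ C ∈ 𝒞, t ≤ (X ∩ C).card ∧ t ≤ (Y ∩ Cᶜ).card := by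
  by_contra hcon
  push Not at hcon
  obtain ⟨hcompl, hsink⟩ := h
  obtain ⟨S, hS, hSP, hSX⟩ := hsink (fun C => (X ∩ C).card < t) (by
    intro C hC
    by_contra hno
    push Not at hno
    obtain ⟨h1, h2⟩ := hno
    have h3 := hcon C hC h1
    have h4 := hcon Cᶜ (hcompl C hC) h2
    rw [compl_compl] at h4
    have h5 := card_split Y C
    omega)
  have h1 := (hSX X).2
  have h2 : ∑ A ∈ S, (X ∩ A).card ≤ S.card * (t - 1) := by
    rw [← smul_eq_mul]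
    apply Finset.sum_le_card_nsmul
    intro A hA
    have := (hSP A hA).2
    omega
  have h3 : S.card * (t - 1) ≤ r * (t - 1) := Nat.mul_le_mul_right _ hS
  obtain ⟨s, rfl⟩ : ∃ s, t = s + 1 := ⟨t - 1, by omega⟩
  simp only [Nat.add_sub_cancel] at h2 h3
  nlinarith

/-- First reduction: a cut of the first tree with two large sides is enough. -/
lemma step_one {r n t : ℕ} {𝒞 : Set (Finset (Fin n))} (hr : 4 ≤ r) (ht : 1 ≤ t)
    (hn : r ^ 3 * t + n ≤ r * n) (h : CutSystem r n 𝒞) (A : Finset (Fin n))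
    (h1 : (r + 2) * t ≤ A.card) (h3 : n ≤ 2 * Aᶜ.card)
    (hgood1 : ∀ C ∈ 𝒞, r * t ≤ (A ∩ C).card → (Aᶜ ∩ Cᶜ).card < 2 * t)
    (hgood2 : ∀ C ∈ 𝒞, r * t ≤ (Aᶜ ∩ C).card → (A ∩ Cᶜ).card < 2 * t) : False := by
  obtain ⟨hcompl, hsink⟩ := h
  have hn4 : 4 * r * t ≤ n := by
    obtain ⟨s, rfl⟩ : ∃ s, r = s + 4 := ⟨r - 4, by omega⟩
    have : (s + 3) * (4 * (s + 4) * t) ≤ (s + 3) * n := by
      have h2 : (s + 4) ^ 3 * t ≤ (s + 3) * n := by nlinarith
      nlinarith [Nat.zero_le (s * t), Nat.zero_le (s ^ 2 * t), Nat.zero_le (s ^ 3 * t)]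
    exact Nat.le_of_mul_le_mul_left this (by omega)
  have hb : 2 * r * t ≤ Aᶜ.card := by nlinarith
  obtain ⟨S, hS, hSP, hSX⟩ := hsink (fun C => (Aᶜ ∩ C).card < 2 * t) (by
    have key : ∀ C ∈ 𝒞, r * t ≤ (Aᶜ ∩ C).card → (Aᶜ ∩ Cᶜ).card < 2 * t := by
      intro C hC hCr
      by_contra hno
      push Not at hno
      have g1 := hgood2 C hC hCr
      have g2 := card_split A C
      have g3 : r * t ≤ (A ∩ C).card := by nlinarith
      have g4 := hgood1 C hC g3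
      omega
    intro C hC
    have g := card_split Aᶜ C
    by_cases hCr : r * t ≤ (Aᶜ ∩ C).card
    · right; exact key C hC hCr
    · left
      have hCr' : r * t ≤ (Aᶜ ∩ Cᶜ).card := by nlinarith
      have := key Cᶜ (hcompl C hC) hCr'
      rwa [compl_compl] at this)
  have h4 := (hSX Aᶜ).2
  have h2 : ∑ C ∈ S, (Aᶜ ∩ C).card ≤ S.card * (2 * t - 1) := by
    rw [← smul_eq_mul]
    apply Finset.sum_le_card_nsmul
    intro C hC
    have := (hSP C hC).2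
    omega
  have h5 : S.card * (2 * t - 1) ≤ r * (2 * t - 1) := Nat.mul_le_mul_right _ hS
  obtain ⟨s, rfl⟩ : ∃ s, t = s + 1 := ⟨t - 1, by omega⟩
  have h6 : 2 * (s + 1) - 1 = 2 * s + 1 := by omega
  rw [h6] at h2 h5
  nlinarith


lemma total_le {n : ℕ} {S : Finset (Finset (Fin n))}
    (hX : ∀ X : Finset (Fin n), ∑ A ∈ S, (X ∩ A).card ≤ X.card ∧
        X.card ≤ ∑ A ∈ S, (X ∩ A).card + 1) : n ≤ ∑ A ∈ S, A.card + 1 := by
  have := (hX Finset.univ).2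
  simpa using this

lemma card_eq_r {r n t : ℕ} (hr : 4 ≤ r) (ht : 1 ≤ t)
    (hn : r ^ 3 * t + n ≤ r * n) {S : Finset (Finset (Fin n))} (hS : S.card ≤ r)
    (hA : ∀ A ∈ S, A.card < (r + 2) * t) (htot : n ≤ ∑ A ∈ S, A.card + 1) : S.card = r := by
  by_contra hne
  have hlt : S.card ≤ r - 1 := by omega
  have h2 : ∑ A ∈ S, A.card ≤ S.card * ((r + 2) * t - 1) := by
    rw [← smul_eq_mul]
    apply Finset.sum_le_card_nsmul
    intro C hC
    have := hA C hC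
    omega
  have h5 : S.card * ((r + 2) * t - 1) ≤ (r - 1) * ((r + 2) * t - 1) :=
    Nat.mul_le_mul_right _ hlt
  obtain ⟨s, rfl⟩ : ∃ s, r = s + 4 := ⟨r - 4, by omega⟩
  obtain ⟨u, rfl⟩ : ∃ u, t = u + 1 := ⟨t - 1, by omega⟩
  have h6 : (s + 4 + 2) * (u + 1) - 1 = (s + 6) * u + s + 5 := by
    have : (s + 4 + 2) * (u + 1) = ((s + 6) * u + s + 5) + 1 := by ring
    omega
  have h7 : s + 4 - 1 = s + 3 := by omega
  rw [h6] at h2 h5
  rw [h7] at h5
  have h8 : n ≤ (s + 3) * ((s + 6) * u + s + 5) + 1 := by omega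
  have h9 : (s + 4) ^ 3 * (u + 1) ≤ (s + 3) * n := by nlinarith
  have h10 : (s + 3) * n ≤ (s + 3) * ((s + 3) * ((s + 6) * u + s + 5) + 1) :=
    Nat.mul_le_mul_left _ h8
  nlinarith [Nat.zero_le (s * u), Nat.zero_le (s ^ 2 * u), Nat.zero_le (s ^ 3 * u),
    Nat.zero_le (s ^ 2), Nat.zero_le (s ^ 3)]

/-- Second reduction: if all branches of the first tree have at least `4t` labels. -/
lemma no_small {r n t : ℕ} (hr : 4 ≤ r) (ht : 1 ≤ t)
    (hn : r ^ 3 * t + n ≤ r * n) {S₁ S₂ : Finset (Finset (Fin n))} (hS₂ : S₂.card = r)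
    (hS₁ : S₁.card = r)
    (hX₁ : ∀ X : Finset (Fin n), ∑ A ∈ S₁, (X ∩ A).card ≤ X.card ∧
        X.card ≤ ∑ A ∈ S₁, (X ∩ A).card + 1)
    (htot₂ : n ≤ ∑ B ∈ S₂, B.card + 1)
    (hbad : ∀ A ∈ S₁, ∀ B ∈ S₂, 4 * t ≤ A.card → 4 * t ≤ B.card →
      B.card < (A ∩ B).card + r * t)
    (hbig : ∀ A ∈ S₁, 4 * t ≤ A.card) : False := by
  -- a branch of the second tree of at least average size
  obtain ⟨B, hB, hBn⟩ : ∃ B ∈ S₂, n ≤ r * B.card + 1 := by
    by_contra hcon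
    push Not at hcon
    have hne : S₂.Nonempty := by
      rw [← Finset.card_pos]; omega
    have h1 : ∑ B ∈ S₂, (r * B.card + 1) < ∑ B ∈ S₂, n :=
      Finset.sum_lt_sum_of_nonempty hne hcon
    rw [Finset.sum_const, smul_eq_mul, hS₂, Finset.sum_add_distrib, ← Finset.mul_sum,
      Finset.sum_const, smul_eq_mul, hS₂] at h1
    nlinarith
  have hn4 : (r + 1) * t + 1 ≤ B.card := by
    obtain ⟨s, rfl⟩ : ∃ s, r = s + 4 := ⟨r - 4, by omega⟩
    by_contra hcon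
    push Not at hcon
    have h1 : B.card ≤ (s + 4 + 1) * t := by omega
    have h2 : (s + 4) ^ 3 * t ≤ (s + 3) * n := by nlinarith
    have h3 : (s + 3) * n ≤ (s + 3) * ((s + 4) * B.card + 1) := Nat.mul_le_mul_left _ hBn
    have h4 : (s + 3) * ((s + 4) * B.card + 1) ≤ (s + 3) * ((s + 4) * ((s + 4 + 1) * t) + 1) := by
      gcongr
    nlinarith [Nat.zero_le (s * t), Nat.zero_le (s ^ 2 * t), Nat.zero_le (s ^ 3 * t)]
  have hB4 : 4 * t ≤ B.card := by nlinarith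
  have hsum : ∑ A ∈ S₁, B.card ≤ ∑ A ∈ S₁, ((B ∩ A).card + (r * t - 1)) := by
    apply Finset.sum_le_sum
    intro A hA
    have := hbad A hA B hB (hbig A hA) hB4
    rw [Finset.inter_comm] at this
    omega
  rw [Finset.sum_const, smul_eq_mul, Finset.sum_add_distrib, Finset.sum_const, smul_eq_mul,
    hS₁] at hsum
  have h1 := (hX₁ B).1
  have h2 : r * B.card ≤ B.card + r * (r * t - 1) := by omega
  obtain ⟨s, rfl⟩ : ∃ s, r = s + 4 := ⟨r - 4, by omega⟩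
  obtain ⟨u, rfl⟩ : ∃ u, t = u + 1 := ⟨t - 1, by omega⟩
  have h6 : (s + 4) * (u + 1) - 1 = (s + 4) * u + s + 3 := by
    have : (s + 4) * (u + 1) = ((s + 4) * u + s + 3) + 1 := by ring
    omega
  rw [h6] at h2
  have h3 : (s + 3) * B.card ≤ (s + 4) * ((s + 4) * u + s + 3) := by nlinarith
  have h4 : (s + 4) ^ 3 * (u + 1) ≤ (s + 3) * n := by nlinarith
  have h5 : (s + 3) * n ≤ (s + 3) * ((s + 4) * B.card + 1) := Nat.mul_le_mul_left _ hBn
  have h7 : (s + 3) * ((s + 4) * B.card + 1) = (s + 4) * ((s + 3) * B.card) + (s + 3) := by ring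
  have h8 : (s + 4) * ((s + 3) * B.card) ≤ (s + 4) * ((s + 4) * ((s + 4) * u + s + 3)) :=
    Nat.mul_le_mul_left _ h3
  nlinarith [Nat.zero_le (s * u), Nat.zero_le (s ^ 2 * u), Nat.zero_le (s ^ 3 * u),
    Nat.zero_le (s ^ 2), Nat.zero_le (s ^ 3)]

/-- Third reduction: both trees have a branch with fewer than `4t` labels. -/
lemma both_small {r n t : ℕ} (hr : 4 ≤ r) (ht : 1 ≤ t)
    (hn : r ^ 3 * t + n ≤ r * n) {S₁ S₂ : Finset (Finset (Fin n))} (hS₂ : S₂.card = r)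
    (hS₁ : S₁.card = r)
    (hX₁ : ∀ X : Finset (Fin n), ∑ A ∈ S₁, (X ∩ A).card ≤ X.card ∧
        X.card ≤ ∑ A ∈ S₁, (X ∩ A).card + 1)
    (hX₂ : ∀ X : Finset (Fin n), ∑ A ∈ S₂, (X ∩ A).card ≤ X.card ∧
        X.card ≤ ∑ A ∈ S₂, (X ∩ A).card + 1)
    (hA₁ : ∀ A ∈ S₁, A.card < (r + 2) * t)
    (hA₂ : ∀ A ∈ S₂, A.card < (r + 2) * t)
    (hint : ∀ A ∈ S₁, ∀ B ∈ S₂, (A ∩ B).card < 2 * t)
    (hbad : ∀ A ∈ S₁, ∀ B ∈ S₂, 4 * t ≤ A.card → 4 * t ≤ B.card →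
      B.card < (A ∩ B).card + r * t)
    {A₀ B₀ : Finset (Fin n)} (hA₀ : A₀ ∈ S₁) (hB₀ : B₀ ∈ S₂) (hA₀t : A₀.card < 4 * t)
    (hB₀t : B₀.card < 4 * t) : False := by
  have htot₁ := total_le hX₁
  have htot₂ := total_le hX₂
  have hc₁ : (S₁.erase A₀).card = r - 1 := by rw [Finset.card_erase_of_mem hA₀, hS₁]
  have hc₂ : (S₂.erase B₀).card = r - 1 := by rw [Finset.card_erase_of_mem hB₀, hS₂]
  rw [← Finset.add_sum_erase _ _ hA₀] at htot₁
  rw [← Finset.add_sum_erase _ _ hB₀] at htot₂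
  -- all the other branches are big
  have big : ∀ {S : Finset (Finset (Fin n))} {C₀ : Finset (Fin n)}, C₀ ∈ S → S.card = r →
      C₀.card < 4 * t → (∀ C ∈ S, C.card < (r + 2) * t) →
      n ≤ C₀.card + ∑ C ∈ S.erase C₀, C.card + 1 → ∀ C ∈ S.erase C₀, 4 * t ≤ C.card := by
    intro S C₀ hC₀ hS hC₀t hSt htot C hC
    by_contra hCt
    push Not at hCt
    rw [← Finset.add_sum_erase _ _ hC] at htot
    have hcard : ((S.erase C₀).erase C).card = r - 2 := by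
      rw [Finset.card_erase_of_mem hC, Finset.card_erase_of_mem hC₀, hS]; omega
    have h2 : ∑ D ∈ (S.erase C₀).erase C, D.card ≤ (r - 2) * ((r + 2) * t - 1) := by
      rw [← smul_eq_mul, ← hcard]
      apply Finset.sum_le_card_nsmul
      intro D hD
      have := hSt D (Finset.mem_of_mem_erase (Finset.mem_of_mem_erase hD))
      omega
    obtain ⟨s, rfl⟩ : ∃ s, r = s + 4 := ⟨r - 4, by omega⟩
    obtain ⟨u, rfl⟩ : ∃ u, t = u + 1 := ⟨t - 1, by omega⟩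
    have h6 : (s + 4 + 2) * (u + 1) - 1 = (s + 6) * u + s + 5 := by
      have : (s + 4 + 2) * (u + 1) = ((s + 6) * u + s + 5) + 1 := by ring
      omega
    have h7 : s + 4 - 2 = s + 2 := by omega
    rw [h6, h7] at h2
    have h8 : n ≤ (s + 2) * ((s + 6) * u + s + 5) + 8 * u + 7 := by omega
    have h9 : (s + 4) ^ 3 * (u + 1) ≤ (s + 3) * n := by nlinarith
    have h10 : (s + 3) * n ≤ (s + 3) * ((s + 2) * ((s + 6) * u + s + 5) + 8 * u + 7) :=
      Nat.mul_le_mul_left _ h8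
    nlinarith [Nat.zero_le (s * u), Nat.zero_le (s ^ 2 * u), Nat.zero_le (s ^ 3 * u),
      Nat.zero_le (s ^ 2), Nat.zero_le (s ^ 3)]
  have big₁ := big hA₀ hS₁ hA₀t hA₁ htot₁
  have big₂ := big hB₀ hS₂ hB₀t hA₂ htot₂
  -- the size of `A₀` from below
  have hA₀low : n ≤ A₀.card + (r - 1) * ((r + 2) * t - 1) + 1 := by
    have h2 : ∑ D ∈ S₁.erase A₀, D.card ≤ (r - 1) * ((r + 2) * t - 1) := by
      rw [← smul_eq_mul, ← hc₁]
      apply Finset.sum_le_card_nsmul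
      intro D hD
      have := hA₁ D (Finset.mem_of_mem_erase hD)
      omega
    omega
  -- the intersections of `A₀` with the big branches of the second tree
  have hint₀ : ∀ B ∈ S₂.erase B₀, (A₀ ∩ B).card + (r - 1) * B.card ≤
      B.card + (r - 1) * (r * t - 1) := by
    intro B hB
    have hB' := Finset.mem_of_mem_erase hB
    have h1 := (hX₁ B).1
    rw [← Finset.add_sum_erase _ _ hA₀] at h1
    have h2 : ∑ A ∈ S₁.erase A₀, B.card ≤ ∑ A ∈ S₁.erase A₀, ((B ∩ A).card + (r * t - 1)) := by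
      apply Finset.sum_le_sum
      intro A hA
      have := hbad A (Finset.mem_of_mem_erase hA) B hB' (big₁ A hA) (big₂ B hB)
      rw [Finset.inter_comm] at this
      omega
    rw [Finset.sum_const, smul_eq_mul, Finset.sum_add_distrib, Finset.sum_const, smul_eq_mul,
      hc₁] at h2
    rw [Finset.inter_comm A₀ B]
    omega
  have hsum := Finset.sum_le_sum hint₀
  rw [Finset.sum_add_distrib, Finset.sum_add_distrib, ← Finset.mul_sum, Finset.sum_const,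
    smul_eq_mul, hc₂] at hsum
  have h3 := (hX₂ A₀).2
  rw [← Finset.add_sum_erase _ _ hB₀] at h3
  have h4 := hint A₀ hA₀ B₀ hB₀
  generalize hsb : ∑ B ∈ S₂.erase B₀, B.card = sb at *
  generalize hsm : ∑ B ∈ S₂.erase B₀, (A₀ ∩ B).card = sm at *
  obtain ⟨s, rfl⟩ : ∃ s, r = s + 4 := ⟨r - 4, by omega⟩
  obtain ⟨u, rfl⟩ : ∃ u, t = u + 1 := ⟨t - 1, by omega⟩
  have h6 : (s + 4 + 2) * (u + 1) - 1 = (s + 6) * u + s + 5 := by
    have : (s + 4 + 2) * (u + 1) = ((s + 6) * u + s + 5) + 1 := by ring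
    omega
  have h6' : (s + 4) * (u + 1) - 1 = (s + 4) * u + s + 3 := by
    have : (s + 4) * (u + 1) = ((s + 4) * u + s + 3) + 1 := by ring
    omega
  have h7 : s + 4 - 1 = s + 3 := by omega
  rw [h6, h7] at hA₀low
  rw [h6', h7] at hsum
  -- `sm + (r-2) sb ≤ (r-1)^2 (rt-1)`, `n ≤ b₀ + sb + 1`, `a₀ ≤ m₀ + sm + 1`
  have k1 : sm + (s + 2) * sb ≤ (s + 3) * ((s + 3) * ((s + 4) * u + s + 3)) := by
    have e : (s + 3) * sb = (s + 2) * sb + sb := by ring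
    rw [e] at hsum
    omega
  have k2 : n ≤ sb + 4 * u + 4 := by omega
  have k3 : n ≤ sm + (s + 3) * ((s + 6) * u + s + 5) + 2 * u + 3 := by omega
  have k4 : (s + 4) ^ 3 * (u + 1) ≤ (s + 3) * n := by
    have e : (s + 4) * n = (s + 3) * n + n := by ring
    rw [e] at hn
    omega
  have k5 : (s + 2) * n ≤ (s + 2) * (sb + 4 * u + 4) := Nat.mul_le_mul_left _ k2
  have k6 : (s + 3) * n = (s + 2) * n + n := by ring
  have k7 : (s + 2) * (sb + 4 * u + 4) = (s + 2) * sb + (s + 2) * (4 * u + 4) := by ring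
  have k8 : (s + 4) ^ 3 * (u + 1) ≤ (s + 3) * ((s + 3) * ((s + 4) * u + s + 3)) +
      (s + 2) * (4 * u + 4) + (s + 3) * ((s + 6) * u + s + 5) + 2 * u + 3 := by omega
  clear hsum hA₀low k1 k2 k3 k4 k5 k6 k7 h3 h4 hint₀ big₁ big₂ big hc₁ hc₂ htot₁ htot₂
  nlinarith [Nat.zero_le (s * u), Nat.zero_le (s ^ 2 * u), Nat.zero_le (s ^ 3 * u),
    Nat.zero_le (s ^ 2), Nat.zero_le (s ^ 3)]


/-- **Two trees.**  If `(r-1) n ≥ r³ t`, `r ≥ 4` and `t ≥ 1`, two cut systems contain cuts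
`{A, Aᶜ}`, `{B, Bᶜ}` with `|A ∩ B| ≥ r t` and `|Aᶜ ∩ Bᶜ| ≥ 2 t`. -/
lemma two_trees {r n t : ℕ} (hr : 4 ≤ r) (ht : 1 ≤ t) (hn : r ^ 3 * t + n ≤ r * n)
    {𝒞₁ 𝒞₂ : Set (Finset (Fin n))} (h₁ : CutSystem r n 𝒞₁) (h₂ : CutSystem r n 𝒞₂) :
    ∃ A ∈ 𝒞₁, ∃ B ∈ 𝒞₂, r * t ≤ (A ∩ B).card ∧ 2 * t ≤ (Aᶜ ∩ Bᶜ).card := by
  by_contra hcon
  push Not at hcon
  -- `hcon : ∀ A ∈ 𝒞₁, ∀ B ∈ 𝒞₂, r t ≤ |A ∩ B| → |Aᶜ ∩ Bᶜ| < 2 t`
  have bal₁ : ∀ A ∈ 𝒞₁, A.card < (r + 2) * t ∨ Aᶜ.card < (r + 2) * t := by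
    intro A hA
    by_contra hno
    push Not at hno
    obtain ⟨h1, h2⟩ := hno
    have hsum : A.card + Aᶜ.card = n := by simp
    rcases le_total A.card Aᶜ.card with hle | hle
    · refine step_one hr ht hn h₂ A h1 (by omega) (fun C hC => hcon A hA C hC)
        (fun C hC hc => ?_)
      have := hcon Aᶜ (h₁.1 A hA) C hC hc
      rwa [compl_compl] at this
    · refine step_one hr ht hn h₂ Aᶜ h2 (by rw [compl_compl]; omega)
        (fun C hC hc => ?_) (fun C hC hc => ?_)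
      · exact hcon Aᶜ (h₁.1 A hA) C hC hc
      · rw [compl_compl] at hc
        exact hcon A hA C hC hc
  have bal₂ : ∀ B ∈ 𝒞₂, B.card < (r + 2) * t ∨ Bᶜ.card < (r + 2) * t := by
    intro B hB
    by_contra hno
    push Not at hno
    obtain ⟨h1, h2⟩ := hno
    have hsum : B.card + Bᶜ.card = n := by simp
    rcases le_total B.card Bᶜ.card with hle | hle
    · refine step_one hr ht hn h₁ B h1 (by omega) (fun C hC hc => ?_)
        (fun C hC hc => ?_)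
      · rw [Finset.inter_comm] at hc ⊢
        exact hcon C hC B hB hc
      · rw [Finset.inter_comm] at hc ⊢
        have := hcon C hC Bᶜ (h₂.1 B hB) hc
        rwa [compl_compl] at this
    · refine step_one hr ht hn h₁ Bᶜ h2 (by rw [compl_compl]; omega)
        (fun C hC hc => ?_) (fun C hC hc => ?_)
      · rw [Finset.inter_comm] at hc ⊢
        exact hcon C hC Bᶜ (h₂.1 B hB) hc
      · rw [compl_compl, Finset.inter_comm] at hc
        rw [Finset.inter_comm]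
        exact hcon C hC B hB hc
  obtain ⟨S₁, hS₁, hSP₁, hX₁⟩ := h₁.2 (fun A => A.card < (r + 2) * t) bal₁
  obtain ⟨S₂, hS₂, hSP₂, hX₂⟩ := h₂.2 (fun B => B.card < (r + 2) * t) bal₂
  have hA₁ : ∀ A ∈ S₁, A.card < (r + 2) * t := fun A hA => (hSP₁ A hA).2
  have hA₂ : ∀ A ∈ S₂, A.card < (r + 2) * t := fun A hA => (hSP₂ A hA).2
  have hc₁ := card_eq_r hr ht hn hS₁ hA₁ (total_le hX₁)
  have hc₂ := card_eq_r hr ht hn hS₂ hA₂ (total_le hX₂)
  -- intersections of branches are small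
  have hint : ∀ A ∈ S₁, ∀ B ∈ S₂, (A ∩ B).card < 2 * t := by
    intro A hA B hB
    by_contra hno
    push Not at hno
    have h1 := hcon Aᶜ (h₁.1 A (hSP₁ A hA).1) Bᶜ (h₂.1 B (hSP₂ B hB).1)
    rw [compl_compl, compl_compl] at h1
    have h2 : (Aᶜ ∩ Bᶜ).card < r * t := by
      by_contra h3
      push Not at h3
      have := h1 h3
      omega
    have h3 : (Aᶜ ∩ Bᶜ).card + (A ∪ B).card = n := by
      rw [← Finset.compl_union]
      have := Finset.card_add_card_compl (A ∪ B)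
      rw [add_comm]
      simpa using this
    have h4 := Finset.card_union_add_card_inter A B
    have h5 := hA₁ A hA
    have h6 := hA₂ B hB
    -- n < r t + 2 (r+2) t - 2 t
    have h7 : n ≤ r * t + 2 * ((r + 2) * t) - 2 * t := by omega
    obtain ⟨s, rfl⟩ : ∃ s, r = s + 4 := ⟨r - 4, by omega⟩
    have h8 : n + 2 * t ≤ (s + 4) * t + 2 * ((s + 4 + 2) * t) := by
      have : 2 * t ≤ (s + 4) * t + 2 * ((s + 4 + 2) * t) := by nlinarith
      omega
    have h9 : (s + 4) ^ 3 * t ≤ (s + 3) * n := by nlinarith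
    have h10 : (s + 3) * (n + 2 * t) ≤ (s + 3) * ((s + 4) * t + 2 * ((s + 4 + 2) * t)) :=
      Nat.mul_le_mul_left _ h8
    nlinarith [Nat.zero_le (s * t), Nat.zero_le (s ^ 2 * t), Nat.zero_le (s ^ 3 * t)]
  -- big branches nearly contain each other up to r t
  have hbad : ∀ A ∈ S₁, ∀ B ∈ S₂, 4 * t ≤ A.card → 4 * t ≤ B.card →
      A.card < (A ∩ B).card + r * t ∧ B.card < (A ∩ B).card + r * t := by
    intro A hA B hB hA4 hB4
    have hi := hint A hA B hB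
    have e1 := card_split A B
    have e2 := card_split B A
    rw [Finset.inter_comm B A] at e2
    constructor
    · by_contra hno
      push Not at hno
      have h1 := hcon A (hSP₁ A hA).1 Bᶜ (h₂.1 B (hSP₂ B hB).1) (by omega)
      rw [compl_compl, Finset.inter_comm] at h1
      omega
    · by_contra hno
      push Not at hno
      have h1 := hcon Aᶜ (h₁.1 A (hSP₁ A hA).1) B (hSP₂ B hB).1
        (by rw [Finset.inter_comm]; omega)
      rw [compl_compl] at h1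
      omega
  by_cases hs₁ : ∀ A ∈ S₁, 4 * t ≤ A.card
  · exact no_small hr ht hn hc₂ hc₁ hX₁ (total_le hX₂)
      (fun A hA B hB h1 h2 => (hbad A hA B hB h1 h2).2) hs₁
  by_cases hs₂ : ∀ B ∈ S₂, 4 * t ≤ B.card
  · exact no_small hr ht hn hc₁ hc₂ hX₂ (total_le hX₁)
      (fun B hB A hA h1 h2 => by
        have := (hbad A hA B hB h2 h1).1
        rwa [Finset.inter_comm] at this) hs₂
  push Not at hs₁ hs₂
  obtain ⟨A₀, hA₀, hA₀t⟩ := hs₁
  obtain ⟨B₀, hB₀, hB₀t⟩ := hs₂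
  exact both_small hr ht hn hc₂ hc₁ hX₁ hX₂ hA₁ hA₂ hint
    (fun A hA B hB h1 h2 => (hbad A hA B hB h1 h2).2) hA₀ hB₀ hA₀t hB₀t

/-- **Three trees, abstract form.** -/
theorem three_trees {r n t : ℕ} (hr : 4 ≤ r) (ht : 1 ≤ t) (hn : r ^ 3 * t + n ≤ r * n)
    {𝒞₁ 𝒞₂ 𝒞₃ : Set (Finset (Fin n))} (h₁ : CutSystem r n 𝒞₁) (h₂ : CutSystem r n 𝒞₂)
    (h₃ : CutSystem r n 𝒞₃) :
    ∃ A ∈ 𝒞₁, ∃ B ∈ 𝒞₂, ∃ C ∈ 𝒞₃, t ≤ (A ∩ B ∩ C).card ∧ t ≤ (Aᶜ ∩ Bᶜ ∩ Cᶜ).card := by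
  obtain ⟨A, hA, B, hB, h1, h2⟩ := two_trees hr ht hn h₁ h₂
  obtain ⟨C, hC, h3, h4⟩ := third_tree (by omega) ht h₃ _ _ h1 h2
  exact ⟨A, hA, B, hB, C, hC, h3, h4⟩

end Pool.Agent.Helper33
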