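import Pool.Agent.Helper33.ExtremalTree

/-!
# Counting for the extremal example
-/

namespace Pool.Agent.Helper33

open SimpleGraph

/-- The possible sizes of the two sides of a cut of the extremal tree, in a coordinate of size
`(s + 1) s ^ 2`. -/
def PairOK (s x y : ℕ) : Prop :=
  (x = s ^ 2 ∧ y = s ^ 3) ∨ (x = s ∧ y + s = s ^ 3 + s ^ 2) ∨ (x = 1 ∧ y = s ^ 3 + s ^ 2)

lemma pair_arith {s : ℕ} (hs : 3 ≤ s) {x₀ x₁ x₂ y₀ y₁ y₂ : ℕ}
    (h₀ : PairOK s x₀ y₀ ∨ PairOK s y₀ x₀) (h₁ : PairOK s x₁ y₁ ∨ PairOK s y₁ x₁)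
    (h₂ : PairOK s x₂ y₂ ∨ PairOK s y₂ x₂) :
    x₀ * x₁ * x₂ ≤ s ^ 7 ∨ y₀ * y₁ * y₂ ≤ s ^ 7 := by
  obtain ⟨u, rfl⟩ : ∃ u, s = u + 3 := ⟨s - 3, by omega⟩
  have conv : ∀ x y, PairOK (u + 3) x y → (x = (u + 3) ^ 2 ∧ y = (u + 3) ^ 3) ∨
      (x = u + 3 ∧ y = u ^ 3 + 10 * u ^ 2 + 32 * u + 33) ∨
      (x = 1 ∧ y = (u + 3) ^ 3 + (u + 3) ^ 2) := by
    rintro x y (h | ⟨h1, h2⟩ | h)
    · exact Or.inl h
    · refine Or.inr (Or.inl ⟨h1, ?_⟩)
      have : (u + 3) ^ 3 + (u + 3) ^ 2 = (u ^ 3 + 10 * u ^ 2 + 32 * u + 33) + (u + 3) := by ring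
      omega
    · exact Or.inr (Or.inr h)
  have key : ∀ x₀ x₁ x₂ y₀ y₁ y₂, PairOK (u + 3) x₀ y₀ → PairOK (u + 3) x₁ y₁ →
      (PairOK (u + 3) x₂ y₂ ∨ PairOK (u + 3) y₂ x₂) →
      x₀ * x₁ * x₂ ≤ (u + 3) ^ 7 ∨ y₀ * y₁ * y₂ ≤ (u + 3) ^ 7 := by
    intro x₀ x₁ x₂ y₀ y₁ y₂ h₀ h₁ h₂
    rcases h₂ with h₂ | h₂
    · left
      rcases conv _ _ h₀ with ⟨rfl, rfl⟩ | ⟨rfl, rfl⟩ | ⟨rfl, rfl⟩ <;>
      rcases conv _ _ h₁ with ⟨rfl, rfl⟩ | ⟨rfl, rfl⟩ | ⟨rfl, rfl⟩ <;>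
      rcases conv _ _ h₂ with ⟨rfl, rfl⟩ | ⟨rfl, rfl⟩ | ⟨rfl, rfl⟩ <;>
      (ring_nf; omega)
    · rcases conv _ _ h₀ with ⟨rfl, rfl⟩ | ⟨rfl, rfl⟩ | ⟨rfl, rfl⟩ <;>
      rcases conv _ _ h₁ with ⟨rfl, rfl⟩ | ⟨rfl, rfl⟩ | ⟨rfl, rfl⟩ <;>
      rcases conv _ _ h₂ with ⟨rfl, rfl⟩ | ⟨rfl, rfl⟩ | ⟨rfl, rfl⟩ <;>
      first
        | (left; ring_nf; omega)
        | (right; ring_nf; omega)
  rcases h₀ with h₀ | h₀ <;> rcases h₁ with h₁ | h₁
  · exact key _ _ _ _ _ _ h₀ h₁ h₂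
  · rcases h₂ with h₂ | h₂
    · have := key x₀ x₂ x₁ y₀ y₂ y₁ h₀ h₂ (Or.inr h₁)
      rw [mul_right_comm x₀ x₂ x₁, mul_right_comm y₀ y₂ y₁] at this
      exact this
    · have := key y₁ y₂ y₀ x₁ x₂ x₀ h₁ h₂ (Or.inr h₀)
      rw [mul_comm (y₁ * y₂), mul_comm (x₁ * x₂), ← mul_assoc, ← mul_assoc] at this
      exact this.symm
  · rcases h₂ with h₂ | h₂
    · have := key x₁ x₂ x₀ y₁ y₂ y₀ h₁ h₂ (Or.inr h₀)
      rw [mul_comm (y₁ * y₂), mul_comm (x₁ * x₂), ← mul_assoc, ← mul_assoc] at this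
      exact this
    · have := key y₀ y₂ y₁ x₀ x₂ x₁ h₀ h₂ (Or.inr h₁)
      rw [mul_right_comm x₀ x₂ x₁, mul_right_comm y₀ y₂ y₁] at this
      exact this.symm
  · exact (key _ _ _ _ _ _ h₀ h₁ h₂.symm).symm

/-- The coordinates. -/
abbrev Coord (r : ℕ) : Type := Fin r × Fin (r - 1) × Fin (r - 1)

lemma pair_of_vertex {r n : ℕ} (hr : 4 ≤ r) (v : Vtx r n) (hv : v ≠ Vtx.root) :
    ∃ P Q : Finset (Coord r), PairOK (r - 1) P.card Q.card ∧
      (∀ (a : Coord r) (p : Fin n), Desc Vtx.parent v (Vtx.path a.1 a.2.1 a.2.2 p) → a ∈ P) ∧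
      (∀ (a : Coord r) (p : Fin n), ¬ Desc Vtx.parent v (Vtx.path a.1 a.2.1 a.2.2 p) → a ∈ Q) := by
  obtain ⟨s, rfl⟩ : ∃ s, r = s + 1 := ⟨r - 1, by omega⟩
  have hs : 3 ≤ s := by omega
  have htot : Fintype.card (Coord (s + 1)) = (s + 1) * (s * s) := by
    simp [Coord]
  cases v with
  | root => exact absurd rfl hv
  | one i =>
    have hcard : (Finset.univ.filter (fun a : Coord (s + 1) => a.1 = i)).card = s * s := by
      have : (Finset.univ.filter (fun a : Coord (s + 1) => a.1 = i)) =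
          ({i} : Finset (Fin (s + 1))) ×ˢ (Finset.univ : Finset (Fin (s + 1 - 1) ×
            Fin (s + 1 - 1))) := by
        ext ⟨a, b⟩
        simp only [Finset.mem_filter, Finset.mem_univ, true_and, Finset.mem_product,
          Finset.mem_singleton, and_true]
      rw [this, Finset.card_product]
      simp
    refine ⟨Finset.univ.filter (fun a => a.1 = i), (Finset.univ.filter (fun a => a.1 = i))ᶜ,
      Or.inl ⟨?_, ?_⟩, ?_, ?_⟩
    · rw [hcard]; simp [sq]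
    · rw [Finset.card_compl, hcard, htot]
      have : (s + 1) * (s * s) = s ^ 3 + s * s := by ring
      simp only [Nat.add_sub_cancel]
      omega
    · intro a p h
      simpa using Vtx.desc_one.mp h
    · intro a p h
      simp only [Finset.mem_compl, Finset.mem_filter, Finset.mem_univ, true_and]
      exact fun h' => h (Vtx.desc_one.mpr h')
  | two i j =>
    have hcard : (Finset.univ.filter (fun a : Coord (s + 1) => a.1 = i ∧ a.2.1 = j)).card = s := by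
      have : (Finset.univ.filter (fun a : Coord (s + 1) => a.1 = i ∧ a.2.1 = j)) =
          ({i} : Finset (Fin (s + 1))) ×ˢ (({j} : Finset (Fin (s + 1 - 1))) ×ˢ
            (Finset.univ : Finset (Fin (s + 1 - 1)))) := by
        ext ⟨a, b, c⟩
        simp only [Finset.mem_filter, Finset.mem_univ, true_and, Finset.mem_product,
          Finset.mem_singleton, and_true]
      rw [this, Finset.card_product, Finset.card_product]
      simp
    refine ⟨Finset.univ.filter (fun a => a.1 = i ∧ a.2.1 = j),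
      (Finset.univ.filter (fun a => a.1 = i ∧ a.2.1 = j))ᶜ, Or.inr (Or.inl ⟨?_, ?_⟩), ?_, ?_⟩
    · rw [hcard]; simp
    · rw [Finset.card_compl, hcard, htot]
      have h1 : (s + 1) * (s * s) = s ^ 3 + s ^ 2 := by ring
      have h2 : s ≤ s ^ 2 := by nlinarith
      simp only [Nat.add_sub_cancel]
      omega
    · intro a p h
      simpa using Vtx.desc_two.mp h
    · intro a p h
      simp only [Finset.mem_compl, Finset.mem_filter, Finset.mem_univ, true_and]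
      exact fun h' => h (Vtx.desc_two.mpr h')
  | path i j k q =>
    refine ⟨{(i, j, k)}, Finset.univ, Or.inr (Or.inr ⟨?_, ?_⟩), ?_, ?_⟩
    · simp
    · rw [Finset.card_univ, htot]
      simp only [Nat.add_sub_cancel]
      ring
    · rintro ⟨a, b, c⟩ p h
      obtain ⟨rfl, rfl, rfl⟩ := Vtx.desc_path h
      simp
    · intro a p _
      exact Finset.mem_univ _

lemma card_le_of_coords {r n q : ℕ} (g : Fin n → (Fin 3 → Coord r) × Fin q)
    (hg : Function.Injective g) (X : Finset (Fin n)) (P : Fin 3 → Finset (Coord r))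
    (hX : ∀ x ∈ X, ∀ i, (g x).1 i ∈ P i) :
    X.card ≤ (P 0).card * (P 1).card * (P 2).card * q := by
  have h1 : X.image g ⊆ (Fintype.piFinset P) ×ˢ (Finset.univ : Finset (Fin q)) := by
    intro y hy
    rw [Finset.mem_image] at hy
    obtain ⟨x, hx, rfl⟩ := hy
    rw [Finset.mem_product]
    exact ⟨Fintype.mem_piFinset.mpr (hX x hx), Finset.mem_univ _⟩
  have h2 := Finset.card_le_card h1
  rw [Finset.card_image_of_injective _ hg, Finset.card_product, Fintype.card_piFinset,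
    Fin.prod_univ_three, Finset.card_univ, Fintype.card_fin] at h2
  exact h2

lemma exists_coords {r : ℕ} (hr : 4 ≤ r) (n : ℕ) :
    ∃ g : Fin n → (Fin 3 → Coord r) × Fin (n / (r * (r - 1) ^ 2) ^ 3 + 1),
      Function.Injective g := by
  have hcard : Fintype.card (Coord r) = r * (r - 1) ^ 2 := by
    simp only [Coord, Fintype.card_prod, Fintype.card_fin]
    ring
  have hpos : 0 < (r * (r - 1) ^ 2) ^ 3 := by
    have : 0 < r - 1 := by omega
    positivity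
  have : Fintype.card (Fin n) ≤
      Fintype.card ((Fin 3 → Coord r) × Fin (n / (r * (r - 1) ^ 2) ^ 3 + 1)) := by
    rw [Fintype.card_prod, Fintype.card_fun, hcard, Fintype.card_fin, Fintype.card_fin,
      Fintype.card_fin]
    have := Nat.lt_mul_div_succ n hpos
    exact this.le
  obtain ⟨e⟩ := Function.Embedding.nonempty_of_card_le this
  exact ⟨e, e.injective⟩

end Pool.Agent.Helper33
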