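import Pool.Agent.Helper33.ParentTree

/-!
# The extremal tree

A centre with `r` children, each of which has `r - 1` children, each of which has `r - 1` pendant
paths on `n` vertices.
-/

namespace Pool.Agent.Helper33

open SimpleGraph

/-- Vertices of the extremal tree. -/
inductive Vtx (r n : ℕ) : Type
  | root : Vtx r n
  | one (i : Fin r) : Vtx r n
  | two (i : Fin r) (j : Fin (r - 1)) : Vtx r n
  | path (i : Fin r) (j k : Fin (r - 1)) (p : Fin n) : Vtx r n

namespace Vtx

variable {r n : ℕ}

/-- Encoding of the vertices in a finite type. -/
def code : Vtx r n → Fin 4 × Option (Fin r) × Option (Fin (r - 1)) × Option (Fin (r - 1)) ×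
    Option (Fin n)
  | root => (0, none, none, none, none)
  | one i => (1, some i, none, none, none)
  | two i j => (2, some i, some j, none, none)
  | path i j k p => (3, some i, some j, some k, some p)

lemma code_injective : Function.Injective (code : Vtx r n → _) := by
  intro a b h
  cases a <;> cases b <;> simp_all [code]

instance : Finite (Vtx r n) := Finite.of_injective code code_injective

/-- The parent function. -/
def parent : Vtx r n → Vtx r n
  | root => root
  | one _ => root
  | two i _ => one i
  | path i j k p => if p.val = 0 then two i j else path i j k ⟨p.val - 1, by omega⟩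

/-- The depth. -/
def depth : Vtx r n → ℕ
  | root => 0
  | one _ => 1
  | two _ _ => 2
  | path _ _ _ p => 3 + p.val

lemma parent_root : parent (root : Vtx r n) = root := rfl

lemma depth_parent (v : Vtx r n) (hv : v ≠ root) : depth (parent v) < depth v := by
  cases v with
  | root => exact absurd rfl hv
  | one i => simp [parent, depth]
  | two i j => simp [parent, depth]
  | path i j k p =>
    simp only [parent]
    split_ifs with h
    · simp only [depth]
      omega
    · simp only [depth]
      omega

lemma isTree : (parentGraph (parent : Vtx r n → Vtx r n)).IsTree :=
  parentGraph_isTree parent_root depth_parent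

lemma degree_le (hr : 2 ≤ r) (v : Vtx r n) :
    ((parentGraph (parent : Vtx r n → Vtx r n)).neighborSet v).ncard ≤ r := by
  cases v with
  | root =>
    have hsub : (parentGraph (parent : Vtx r n → Vtx r n)).neighborSet root ⊆
        Set.range (fun i : Fin r => (one i : Vtx r n)) := by
      intro w hw
      rw [mem_neighborSet, parentGraph_adj] at hw
      obtain ⟨hne, h | h⟩ := hw
      · exact absurd h hne
      · cases w with
        | root => exact absurd rfl hne
        | one i => exact ⟨i, rfl⟩
        | two i j => simp [parent] at h
        | path i j k p => simp only [parent] at h; split_ifs at h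
    refine (Set.ncard_le_ncard hsub (Set.toFinite _)).trans ?_
    rw [← Set.image_univ]
    refine (Set.ncard_image_le (Set.toFinite _)).trans ?_
    simp [Set.ncard_univ]
  | one i =>
    have hsub : (parentGraph (parent : Vtx r n → Vtx r n)).neighborSet (one i) ⊆
        insert root (Set.range (fun j : Fin (r - 1) => (two i j : Vtx r n))) := by
      intro w hw
      rw [mem_neighborSet, parentGraph_adj] at hw
      obtain ⟨hne, h | h⟩ := hw
      · left; exact h.symm
      · right
        cases w with
        | root => simp [parent] at h
        | one i => simp [parent] at h
        | two i' j =>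
          simp only [parent, one.injEq] at h
          subst h
          exact ⟨j, rfl⟩
        | path i j k p => simp only [parent] at h; split_ifs at h
    refine (Set.ncard_le_ncard hsub (Set.toFinite _)).trans ?_
    refine (Set.ncard_insert_le _ _).trans ?_
    rw [← Set.image_univ]
    have := Set.ncard_image_le (f := fun j : Fin (r - 1) => (two i j : Vtx r n))
      (s := Set.univ) (Set.toFinite _)
    rw [Set.ncard_univ, Nat.card_eq_fintype_card, Fintype.card_fin] at this
    omega
  | two i j =>
    have hsub : (parentGraph (parent : Vtx r n → Vtx r n)).neighborSet (two i j) ⊆
        insert (one i) (⋃ k : Fin (r - 1), {w : Vtx r n | ∃ p : Fin n, p.val = 0 ∧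
          w = path i j k p}) := by
      intro w hw
      rw [mem_neighborSet, parentGraph_adj] at hw
      obtain ⟨hne, h | h⟩ := hw
      · left; exact h.symm
      · right
        cases w with
        | root => simp [parent] at h
        | one i => simp [parent] at h
        | two i' j => simp [parent] at h
        | path i' j' k p =>
          simp only [parent] at h
          split_ifs at h with hp
          simp only [two.injEq] at h
          obtain ⟨rfl, rfl⟩ := h
          simp only [Set.mem_iUnion, Set.mem_ofPred_eq]
          exact ⟨k, p, hp, rfl⟩
    refine (Set.ncard_le_ncard hsub (Set.toFinite _)).trans ?_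
    refine (Set.ncard_insert_le _ _).trans ?_
    have h1 : (⋃ k : Fin (r - 1), {w : Vtx r n | ∃ p : Fin n, p.val = 0 ∧
          w = path i j k p}) ⊆ (fun k : Fin (r - 1) => (if h : 0 < n then
            path i j k ⟨0, h⟩ else root : Vtx r n)) '' Set.univ := by
      intro w hw
      simp only [Set.mem_iUnion, Set.mem_ofPred_eq] at hw
      obtain ⟨k, p, hp, rfl⟩ := hw
      refine ⟨k, trivial, ?_⟩
      have hn : 0 < n := lt_of_le_of_lt (Nat.zero_le _) p.isLt
      simp only [hn, ↓reduceDIte]
      congr 1
      ext
      simp [hp]
    have h2 := (Set.ncard_le_ncard h1 (Set.toFinite _)).trans (Set.ncard_image_le (Set.toFinite _))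
    rw [Set.ncard_univ, Nat.card_eq_fintype_card, Fintype.card_fin] at h2
    omega
  | path i j k p =>
    have hsub : (parentGraph (parent : Vtx r n → Vtx r n)).neighborSet (path i j k p) ⊆
        insert (parent (path i j k p)) {w : Vtx r n | ∃ q : Fin n, q.val = p.val + 1 ∧
          w = path i j k q} := by
      intro w hw
      rw [mem_neighborSet, parentGraph_adj] at hw
      obtain ⟨hne, h | h⟩ := hw
      · left; exact h.symm
      · right
        cases w with
        | root => simp [parent] at h
        | one i => simp [parent] at h
        | two i' j => simp [parent] at h
        | path i' j' k' q =>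
          simp only [parent] at h
          split_ifs at h with hq
          simp only [path.injEq] at h
          obtain ⟨rfl, rfl, rfl, rfl⟩ := h
          refine ⟨q, ?_, rfl⟩
          simp only
          omega
    refine (Set.ncard_le_ncard hsub (Set.toFinite _)).trans ?_
    refine (Set.ncard_insert_le _ _).trans ?_
    have h1 : {w : Vtx r n | ∃ q : Fin n, q.val = p.val + 1 ∧ w = path i j k q}.ncard ≤ 1 := by
      rw [Set.ncard_le_one (Set.toFinite _)]
      rintro a ⟨q, hq, rfl⟩ b ⟨q', hq', rfl⟩
      congr 1
      ext
      omega
    omega

lemma iterate_path {a : Fin r} {b c : Fin (r - 1)} {p : Fin n} :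
    parent^[p.val + 1] (path a b c p : Vtx r n) = two a b := by
  obtain ⟨pv, hp⟩ := p
  simp only
  induction pv with
  | zero => simp [parent]
  | succ m ih =>
    rw [Function.iterate_succ, Function.comp_apply]
    simpa [parent] using ih (by omega)

/-- Descendants of a vertex of level one. -/
lemma desc_one {i a : Fin r} {b c : Fin (r - 1)} {p : Fin n} :
    Desc parent (one i) (path a b c p : Vtx r n) ↔ a = i := by
  constructor
  · -- invariant of the iteration
    have key : ∀ (m : ℕ) (w : Vtx r n), parent^[m] w = one i →
        (∃ b, w = two i b) ∨ w = one i ∨ ∃ b c p, w = path i b c p := by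
      intro m
      induction m with
      | zero => intro w hw; exact Or.inr (Or.inl hw)
      | succ m ih =>
        intro w hw
        rw [Function.iterate_succ, Function.comp_apply] at hw
        have := ih (parent w) hw
        cases w with
        | root => simp [parent] at this
        | one i' => simp [parent] at this
        | two i' j' =>
          simp only [parent, one.injEq] at this
          rcases this with ⟨b, hb⟩ | h | ⟨b, c, p, h⟩
          · cases hb
          · subst h; exact Or.inl ⟨_, rfl⟩
          · cases h
        | path i' j' k' p' =>
          simp only [parent] at this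
          split_ifs at this with hp
          · rcases this with ⟨b, hb⟩ | h | ⟨b, c, p, h⟩
            · simp only [two.injEq] at hb
              obtain ⟨rfl, -⟩ := hb
              exact Or.inr (Or.inr ⟨_, _, _, rfl⟩)
            · cases h
            · cases h
          · rcases this with ⟨b, hb⟩ | h | ⟨b, c, p, h⟩
            · cases hb
            · cases h
            · simp only [path.injEq] at h
              obtain ⟨rfl, -⟩ := h
              exact Or.inr (Or.inr ⟨_, _, _, rfl⟩)
    rintro ⟨m, hm⟩
    rcases key m _ hm with ⟨b, hb⟩ | h | ⟨b, c, p, h⟩
    · cases hb
    · cases h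
    · simp only [path.injEq] at h
      exact h.1
  · rintro rfl
    refine ⟨(p.val + 1).succ, ?_⟩
    rw [Function.iterate_succ_apply', iterate_path]
    rfl

/-- Descendants of a vertex of level two. -/
lemma desc_two {i a : Fin r} {j b c : Fin (r - 1)} {p : Fin n} :
    Desc parent (two i j) (path a b c p : Vtx r n) ↔ a = i ∧ b = j := by
  constructor
  · have key : ∀ (m : ℕ) (w : Vtx r n), parent^[m] w = two i j →
        w = two i j ∨ ∃ c p, w = path i j c p := by
      intro m
      induction m with
      | zero => intro w hw; exact Or.inl hw
      | succ m ih =>
        intro w hw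
        rw [Function.iterate_succ, Function.comp_apply] at hw
        have := ih (parent w) hw
        cases w with
        | root => simp [parent] at this
        | one i' => simp [parent] at this
        | two i' j' => simp [parent] at this
        | path i' j' k' p' =>
          simp only [parent] at this
          split_ifs at this with hp
          · rcases this with h | ⟨c, p, h⟩
            · simp only [two.injEq] at h
              obtain ⟨rfl, rfl⟩ := h
              exact Or.inr ⟨_, _, rfl⟩
            · cases h
          · rcases this with h | ⟨c, p, h⟩
            · cases h
            · simp only [path.injEq] at h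
              obtain ⟨rfl, rfl, -⟩ := h
              exact Or.inr ⟨_, _, rfl⟩
    rintro ⟨m, hm⟩
    rcases key m _ hm with h | ⟨c, p, h⟩
    · cases h
    · simp only [path.injEq] at h
      exact ⟨h.1, h.2.1⟩
  · rintro ⟨rfl, rfl⟩
    exact ⟨p.val + 1, iterate_path⟩

/-- Descendants of a vertex on a pendant path. -/
lemma desc_path {i a : Fin r} {j k b c : Fin (r - 1)} {p q : Fin n}
    (h : Desc parent (path i j k q) (path a b c p : Vtx r n)) : a = i ∧ b = j ∧ c = k := by
  have key : ∀ (m : ℕ) (w : Vtx r n), parent^[m] w = path i j k q →
      ∃ p, w = path i j k p := by
    intro m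
    induction m with
    | zero => intro w hw; exact ⟨q, hw⟩
    | succ m ih =>
      intro w hw
      rw [Function.iterate_succ, Function.comp_apply] at hw
      have := ih (parent w) hw
      cases w with
      | root => simp [parent] at this
      | one i' => simp [parent] at this
      | two i' j' => simp [parent] at this
      | path i' j' k' p' =>
        simp only [parent] at this
        split_ifs at this with hp
        · obtain ⟨p, h⟩ := this
          cases h
        · obtain ⟨p, h⟩ := this
          simp only [path.injEq] at h
          obtain ⟨rfl, rfl, rfl, -⟩ := h
          exact ⟨_, rfl⟩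
  obtain ⟨m, hm⟩ := h
  obtain ⟨p', h⟩ := key m _ hm
  simp only [path.injEq] at h
  exact ⟨h.1, h.2.1, h.2.2.1⟩

end Vtx

end Pool.Agent.Helper33
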