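import Mathlib

/-!
# Maximum independent sets of bipartite graphs

In a bipartite graph the maximum independent sets inside a vertex set `U` form a lattice, so two of
them meet exactly in the core.
-/

namespace Pool.Agent.Helper33

open SimpleGraph Finset

variable {V : Type*} [DecidableEq V]

/-- The independent sets of size `k` inside `U`. -/
def IndIn (G : SimpleGraph V) (k : ℕ) (U F : Finset V) : Prop :=
  G.IsIndepSet (F : Set V) ∧ F.card = k ∧ F ⊆ U

omit [DecidableEq V] in
lemma indep_mono {G : SimpleGraph V} {F F' : Finset V} (h : G.IsIndepSet (F' : Set V))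
    (hF : F ⊆ F') : G.IsIndepSet (F : Set V) := by
  intro a ha b hb hab
  exact h (hF ha) (hF hb) hab

/-- If a bipartite graph has no independent `(k+1)`-set inside `U` but has an independent `k`-set
inside `U`, then there are two independent `k`-sets `F`, `F'` inside `U` such that every element of
`F ∩ F'` belongs to all independent `k`-sets inside `U`. -/
theorem exists_pair_meeting_in_core {G : SimpleGraph V} (c : V → Bool)
    (hc : ∀ u v, G.Adj u v → c u ≠ c v) (k : ℕ) (U : Finset V)
    (hk : ∃ F, IndIn G k U F) (hk1 : ¬ ∃ F, IndIn G (k + 1) U F) :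
    ∃ F F', IndIn G k U F ∧ IndIn G k U F' ∧ ∀ v ∈ F, v ∈ F' → ∀ E, IndIn G k U E → v ∈ E := by
  classical
  -- join and meet of two maximum independent sets
  let join : Bool → Finset V → Finset V → Finset V := fun b S T =>
    ((S ∪ T).filter (fun v => c v = b)) ∪ ((S ∩ T).filter (fun v => c v ≠ b))
  have hjoin_indep : ∀ b S T, IndIn G k U S → IndIn G k U T →
      G.IsIndepSet ((join b S T : Finset V) : Set V) := by
    intro b S T hS hT x hx y hy hxy hadj
    simp only [join, Finset.coe_union, Set.mem_union, Finset.mem_coe, Finset.mem_filter,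
      Finset.mem_union, Finset.mem_inter] at hx hy
    have hne := hc x y hadj
    have hSi := hS.1
    have hTi := hT.1
    rcases hx with ⟨hx1, hx2⟩ | ⟨⟨hx1, hx1'⟩, hx2⟩
    · rcases hy with ⟨hy1, hy2⟩ | ⟨⟨hy1, hy1'⟩, hy2⟩
      · exact hne (hx2.trans hy2.symm)
      · rcases hx1 with hx1 | hx1
        · exact hSi hx1 hy1 hxy hadj
        · exact hTi hx1 hy1' hxy hadj
    · rcases hy with ⟨hy1, hy2⟩ | ⟨⟨hy1, hy1'⟩, hy2⟩
      · rcases hy1 with hy1 | hy1
        · exact hSi hx1 hy1 hxy hadj
        · exact hTi hx1' hy1 hxy hadj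
      · exact hSi hx1 hy1 hxy hadj
  have hjoin_card : ∀ b S T, (join b S T).card + (join (!b) S T).card = S.card + T.card := by
    intro b S T
    have h1 : ∀ b, (join b S T).card = ((S ∪ T).filter (fun v => c v = b)).card +
        ((S ∩ T).filter (fun v => c v ≠ b)).card := by
      intro b
      simp only [join]
      rw [Finset.card_union_of_disjoint]
      rw [Finset.disjoint_left]
      intro x hx hx'
      simp only [Finset.mem_filter] at hx hx'
      exact hx'.2 hx.2
    rw [h1 b, h1 (!b)]
    have h2 := Finset.card_filter_add_card_filter_not (s := S ∪ T) (fun v => c v = b)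
    have h3 := Finset.card_filter_add_card_filter_not (s := S ∩ T) (fun v => c v = b)
    have h4 := Finset.card_union_add_card_inter S T
    have h5 : (S ∪ T).filter (fun v => c v = !b) = (S ∪ T).filter (fun v => ¬ c v = b) := by
      ext v
      simp only [Finset.mem_filter]
      cases hv : c v <;> cases b <;> simp
    have h6 : (S ∩ T).filter (fun v => c v ≠ !b) = (S ∩ T).filter (fun v => c v = b) := by
      ext v
      simp only [Finset.mem_filter]
      cases hv : c v <;> cases b <;> simp
    rw [h5, h6]
    simp only [ne_eq]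
    omega
  have hjoin_sub : ∀ b S T, IndIn G k U S → IndIn G k U T → join b S T ⊆ U := by
    intro b S T hS hT x hx
    simp only [join, Finset.mem_union, Finset.mem_filter, Finset.mem_inter] at hx
    rcases hx with ⟨hx | hx, -⟩ | ⟨⟨hx, -⟩, -⟩
    · exact hS.2.2 hx
    · exact hT.2.2 hx
    · exact hS.2.2 hx
  have hle : ∀ F : Finset V, G.IsIndepSet (F : Set V) → F ⊆ U → F.card ≤ k := by
    intro F hF hFU
    by_contra hlt
    push Not at hlt
    obtain ⟨F', hF', hcard⟩ := Finset.exists_subset_card_eq hlt
    exact hk1 ⟨F', indep_mono hF hF', hcard, hF'.trans hFU⟩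
  have hjoin : ∀ b S T, IndIn G k U S → IndIn G k U T → IndIn G k U (join b S T) := by
    intro b S T hS hT
    refine ⟨hjoin_indep b S T hS hT, ?_, hjoin_sub b S T hS hT⟩
    have h1 := hle _ (hjoin_indep b S T hS hT) (hjoin_sub b S T hS hT)
    have h2 := hle _ (hjoin_indep (!b) S T hS hT) (hjoin_sub (!b) S T hS hT)
    have h3 := hjoin_card b S T
    rw [hS.2.1, hT.2.1] at h3
    omega
  -- for each colour a maximum independent set with the largest part of that colour
  have hmax : ∀ b : Bool, ∃ F, IndIn G k U F ∧ ∀ E, IndIn G k U E →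
      (∀ v ∈ E, c v = b → v ∈ F) ∧ (∀ v ∈ F, c v ≠ b → v ∈ E) := by
    intro b
    obtain ⟨F₀, hF₀⟩ := hk
    have hfin : ((U.powerset).filter (fun F => IndIn G k U F)).Nonempty :=
      ⟨F₀, by simp only [Finset.mem_filter, Finset.mem_powerset]; exact ⟨hF₀.2.2, hF₀⟩⟩
    obtain ⟨F, hF, hFmax⟩ := Finset.exists_max_image _
      (fun F => (F.filter (fun v => c v = b)).card) hfin
    simp only [Finset.mem_filter, Finset.mem_powerset] at hF
    refine ⟨F, hF.2, ?_⟩
    intro E hE
    have hJ := hjoin b F E hF.2 hE
    have h1 := hFmax (join b F E) (by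
      simp only [Finset.mem_filter, Finset.mem_powerset]; exact ⟨hJ.2.2, hJ⟩)
    have hsub : F.filter (fun v => c v = b) ⊆ (join b F E).filter (fun v => c v = b) := by
      intro v hv
      simp only [join, Finset.mem_filter, Finset.mem_union, Finset.mem_inter] at hv ⊢
      exact ⟨Or.inl ⟨Or.inl hv.1, hv.2⟩, hv.2⟩
    have heq := Finset.eq_of_subset_of_card_le hsub h1
    have hA : ∀ v ∈ E, c v = b → v ∈ F := by
      intro v hv hvb
      have : v ∈ (join b F E).filter (fun v => c v = b) := by
        simp only [join, Finset.mem_filter, Finset.mem_union, Finset.mem_inter]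
        exact ⟨Or.inl ⟨Or.inr hv, hvb⟩, hvb⟩
      rw [← heq] at this
      exact (Finset.mem_filter.mp this).1
    refine ⟨hA, ?_⟩
    -- the other colour class: counting
    have h2 : (join b F E).card = F.card := by rw [hJ.2.1, hF.2.2.1]
    have h3 := Finset.card_filter_add_card_filter_not (s := join b F E) (fun v => c v = b)
    have h4 := Finset.card_filter_add_card_filter_not (s := F) (fun v => c v = b)
    have hsub2 : (join b F E).filter (fun v => ¬ c v = b) ⊆ F.filter (fun v => ¬ c v = b) := by
      intro v hv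
      simp only [join, Finset.mem_filter, Finset.mem_union, Finset.mem_inter] at hv ⊢
      rcases hv with ⟨⟨-, h⟩ | ⟨⟨h, -⟩, -⟩, h'⟩
      · exact absurd h h'
      · exact ⟨h, h'⟩
    have hcardeq : (F.filter (fun v => ¬ c v = b)).card ≤
        ((join b F E).filter (fun v => ¬ c v = b)).card := by
      rw [← heq] at h3
      omega
    have heq2 := Finset.eq_of_subset_of_card_le hsub2 hcardeq
    intro v hv hvb
    have : v ∈ F.filter (fun v => ¬ c v = b) := Finset.mem_filter.mpr ⟨hv, hvb⟩
    rw [← heq2] at this
    simp only [join, Finset.mem_filter, Finset.mem_union, Finset.mem_inter] at this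
    rcases this with ⟨⟨-, h⟩ | ⟨⟨-, h⟩, -⟩, -⟩
    · exact absurd h hvb
    · exact h
  obtain ⟨F, hF, hF'⟩ := hmax true
  obtain ⟨E, hE, hE'⟩ := hmax false
  refine ⟨F, E, hF, hE, ?_⟩
  intro v hvF hvE D hD
  cases hv : c v with
  | true => exact (hE' D hD).2 v hvE (by rw [hv]; decide)
  | false => exact (hF' D hD).2 v hvF (by rw [hv]; decide)

end Pool.Agent.Helper33
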