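import Mathlib

/-!
# Trees given by a parent function
-/

namespace Pool.Agent.Helper33

open SimpleGraph

variable {V : Type*}

/-- The graph in which every `v ≠ p v` is joined to its parent `p v`. -/
def parentGraph (p : V → V) : SimpleGraph V := SimpleGraph.fromRel (fun u v => p u = v)

lemma parentGraph_adj {p : V → V} {u v : V} :
    (parentGraph p).Adj u v ↔ u ≠ v ∧ (p u = v ∨ p v = u) := by
  simp [parentGraph, SimpleGraph.fromRel_adj]

/-- `w` is a descendant of `v` (or `v` itself). -/
def Desc (p : V → V) (v w : V) : Prop := ∃ k : ℕ, p^[k] w = v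

lemma desc_self (p : V → V) (v : V) : Desc p v v := ⟨0, rfl⟩

lemma reachable_induct' {G : SimpleGraph V} {P : V → Prop} {a b : V}
    (hP : ∀ x y, G.Adj x y → P x → P y) (ha : P a) (h : G.Reachable a b) : P b := by
  obtain ⟨q⟩ := h
  induction q with
  | nil => exact ha
  | cons h q ih => exact ih (hP _ _ h ha)

/-- Descendants of `v` are closed under adjacency once the edge from `v` to its parent is
deleted. -/
lemma desc_closed {p : V → V} {v a b : V}
    (hab : ((parentGraph p).deleteEdges {s(v, p v)}).Adj a b) (ha : Desc p v a) : Desc p v b := by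
  rw [deleteEdges_adj, parentGraph_adj] at hab
  obtain ⟨⟨hne, hor⟩, he⟩ := hab
  simp only [Set.mem_singleton_iff, Sym2.eq_iff] at he
  rcases hor with h | h
  · obtain ⟨k, hk⟩ := ha
    cases k with
    | zero =>
      exfalso
      simp only [Function.iterate_zero, id_eq] at hk
      subst hk
      exact he (Or.inl ⟨rfl, h.symm⟩)
    | succ k =>
      rw [Function.iterate_succ, Function.comp_apply, h] at hk
      exact ⟨k, hk⟩
  · obtain ⟨k, hk⟩ := ha
    refine ⟨k + 1, ?_⟩
    rw [Function.iterate_succ, Function.comp_apply, h]
    exact hk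

lemma not_desc_closed {p : V → V} {v a b : V}
    (hab : ((parentGraph p).deleteEdges {s(v, p v)}).Adj a b) (ha : ¬ Desc p v a) :
    ¬ Desc p v b := fun hb => ha (desc_closed hab.symm hb)

variable {p : V → V} {root : V} {d : V → ℕ}

lemma depth_iterate_le (hroot : p root = root) (hd : ∀ v, v ≠ root → d (p v) < d v) (k : ℕ)
    (w : V) : d (p^[k] w) ≤ d w := by
  induction k generalizing w with
  | zero => simp
  | succ k ih =>
    rw [Function.iterate_succ, Function.comp_apply]
    refine (ih (p w)).trans ?_
    by_cases h : w = root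
    · subst h; rw [hroot]
    · exact (hd w h).le

lemma not_desc_parent (hroot : p root = root) (hd : ∀ v, v ≠ root → d (p v) < d v) {v : V}
    (hv : v ≠ root) : ¬ Desc p v (p v) := by
  rintro ⟨k, hk⟩
  have h1 := depth_iterate_le hroot hd k (p v)
  rw [hk] at h1
  have h2 := hd v hv
  omega

lemma parent_ne (hd : ∀ v, v ≠ root → d (p v) < d v) {v : V} (hv : v ≠ root) : p v ≠ v := by
  intro h
  have := hd v hv
  rw [h] at this
  omega

lemma parentGraph_isTree (hroot : p root = root) (hd : ∀ v, v ≠ root → d (p v) < d v) :
    (parentGraph p).IsTree := by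
  have hreach : ∀ n v, d v ≤ n → (parentGraph p).Reachable v root := by
    intro n
    induction n with
    | zero =>
      intro v hv
      by_cases h : v = root
      · subst h; exact Reachable.refl _
      · have := hd v h; omega
    | succ n ih =>
      intro v hv
      by_cases h : v = root
      · subst h; exact Reachable.refl _
      · have h1 := hd v h
        have hadj : (parentGraph p).Adj v (p v) := by
          rw [parentGraph_adj]
          exact ⟨(parent_ne hd h).symm, Or.inl rfl⟩
        exact hadj.reachable.trans (ih (p v) (by omega))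
  refine ⟨?_, ?_⟩
  · exact { preconnected := fun u v => (hreach _ u le_rfl).trans (hreach _ v le_rfl).symm,
            nonempty := ⟨root⟩ }
  · rw [isAcyclic_iff_forall_adj_isBridge]
    have key : ∀ v, v ≠ p v → ¬ ((parentGraph p).deleteEdges {s(v, p v)}).Reachable v (p v) := by
      intro v hv hr
      have hvr : v ≠ root := by
        rintro rfl; exact hv hroot.symm
      have := reachable_induct' (P := fun w => Desc p v w) (fun x y hxy hx => desc_closed hxy hx)
        (desc_self p v) hr
      exact not_desc_parent hroot hd hvr this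
    intro a b hab
    rw [parentGraph_adj] at hab
    obtain ⟨hne, h | h⟩ := hab
    · subst h
      rw [isBridge_iff]
      exact key a hne
    · subst h
      rw [isBridge_iff, Sym2.eq_swap]
      exact fun hr => key b hne.symm hr.symm

/-- An edge of a parent graph separates the descendants of its lower end from the rest. -/
lemma parentGraph_sep (hroot : p root = root) (hd : ∀ v, v ≠ root → d (p v) < d v)
    {e : Sym2 V} (he : e ∈ (parentGraph p).edgeSet) :
    ∃ v, v ≠ root ∧ ∀ a b, e = s(a, b) →
      ((∀ w, ((parentGraph p).deleteEdges {e}).Reachable a w → Desc p v w) ∧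
       (∀ w, ((parentGraph p).deleteEdges {e}).Reachable b w → ¬ Desc p v w)) ∨
      ((∀ w, ((parentGraph p).deleteEdges {e}).Reachable a w → ¬ Desc p v w) ∧
       (∀ w, ((parentGraph p).deleteEdges {e}).Reachable b w → Desc p v w)) := by
  have main : ∀ v, v ≠ p v → e = s(v, p v) → ∃ v, v ≠ root ∧ ∀ a b, e = s(a, b) →
      ((∀ w, ((parentGraph p).deleteEdges {e}).Reachable a w → Desc p v w) ∧
       (∀ w, ((parentGraph p).deleteEdges {e}).Reachable b w → ¬ Desc p v w)) ∨
      ((∀ w, ((parentGraph p).deleteEdges {e}).Reachable a w → ¬ Desc p v w) ∧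
       (∀ w, ((parentGraph p).deleteEdges {e}).Reachable b w → Desc p v w)) := by
    rintro v hv rfl
    have hvr : v ≠ root := by
      rintro rfl; exact hv hroot.symm
    have h1 : ∀ w, ((parentGraph p).deleteEdges {s(v, p v)}).Reachable v w → Desc p v w :=
      fun w hw => reachable_induct' (P := fun w => Desc p v w)
        (fun x y hxy hx => desc_closed hxy hx) (desc_self p v) hw
    have h2 : ∀ w, ((parentGraph p).deleteEdges {s(v, p v)}).Reachable (p v) w → ¬ Desc p v w :=
      fun w hw => reachable_induct' (P := fun w => ¬ Desc p v w)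
        (fun x y hxy hx => not_desc_closed hxy hx) (not_desc_parent hroot hd hvr) hw
    refine ⟨v, hvr, ?_⟩
    intro a b hab
    rw [Sym2.eq_iff] at hab
    rcases hab with ⟨ha, hb⟩ | ⟨ha, hb⟩
    · left
      rw [← ha, ← hb]
      exact ⟨h1, h2⟩
    · right
      rw [← ha, ← hb]
      exact ⟨h2, h1⟩
  induction e with
  | h a b =>
    rw [mem_edgeSet, parentGraph_adj] at he
    obtain ⟨hne, h | h⟩ := he
    · subst h
      exact main a hne rfl
    · subst h
      exact main b hne.symm Sym2.eq_swap

end Pool.Agent.Helper33
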