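import Pool.Agent.Helper33.SymbolicSquare

/-!
# The second symbolic defect of the facet ideals of the skeleta of an independence complex
-/

namespace Pool.Agent.Helper33

open MvPolynomial Finset

variable {V : Type*} [DecidableEq V] {K : Type*} [Field K]

/-- The independent sets with `k` elements. -/
def indFam (G : SimpleGraph V) (k : ℕ) : Set (Finset V) :=
  {F | G.IsIndepSet (F : Set V) ∧ F.card = k}

lemma single_add_single_le {u v : V} {m : V →₀ ℕ}
    (h : Finsupp.single u 1 + Finsupp.single v 1 ≤ m) :
    1 ≤ m u ∧ 1 ≤ m v ∧ (u = v → 2 ≤ m u) := by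
  have h1 := h u
  have h2 := h v
  simp only [Finsupp.add_apply, Finsupp.single_apply, if_true] at h1 h2
  refine ⟨by omega, by omega, ?_⟩
  rintro rfl
  simp only [if_true] at h1
  exact h1

lemma good_cases {G : SimpleGraph V} (c : V → Bool) (hc : ∀ u v, G.Adj u v → c u ≠ c v) {k : ℕ}
    {m : V →₀ ℕ} (hm : Good (indFam G k) m) :
    (∃ U ∈ indFam G (k + 1), ex U ≤ m) ∨
      (∃ F ∈ indFam G k, ∃ F' ∈ indFam G k, ex F + ex F' ≤ m) := by
  by_cases h : ∃ F, IndIn G (k + 1) m.support F
  · left
    obtain ⟨U, hU, hUc, hUs⟩ := h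
    refine ⟨U, ⟨hU, hUc⟩, ?_⟩
    intro v
    rw [ex_apply]
    split_ifs with hv
    · have := hUs hv
      rw [Finsupp.mem_support_iff] at this
      omega
    · exact Nat.zero_le _
  · right
    have hk : ∃ F, IndIn G k m.support F := by
      by_contra hno
      push Not at hno
      obtain ⟨u, hu, v, -, huv⟩ := hm ((m.support : Set V)ᶜ) (by
        intro F hF
        by_contra hcon
        push Not at hcon
        refine hno F ⟨hF.1, hF.2, ?_⟩
        intro v hv
        simpa using hcon v hv)
      have := (single_add_single_le huv).1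
      apply hu
      simp only [Finset.mem_coe, Finsupp.mem_support_iff]
      omega
    obtain ⟨F, F', hF, hF', hcore⟩ := exists_pair_meeting_in_core c hc k m.support hk h
    refine ⟨F, ⟨hF.1, hF.2.1⟩, F', ⟨hF'.1, hF'.2.1⟩, ?_⟩
    intro v
    rw [Finsupp.add_apply, ex_apply, ex_apply]
    by_cases hv : v ∈ F
    · by_cases hv' : v ∈ F'
      · rw [if_pos hv, if_pos hv']
        obtain ⟨u, hu, w, hw, huw⟩ := hm ((m.support : Set V)ᶜ ∪ {v}) (by
          intro E hE
          by_cases hEs : E ⊆ m.support
          · exact ⟨v, hcore v hv hv' E ⟨hE.1, hE.2, hEs⟩, Or.inr rfl⟩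
          · rw [Finset.not_subset] at hEs
            obtain ⟨x, hx, hxs⟩ := hEs
            exact ⟨x, hx, Or.inl hxs⟩)
        have h3 := single_add_single_le huw
        have h4 : ∀ x, x ∈ ((m.support : Set V)ᶜ ∪ {v}) → 1 ≤ m x → x = v := by
          intro x hx hx1
          rcases hx with hx | hx
          · exfalso
            apply hx
            simp only [Finset.mem_coe, Finsupp.mem_support_iff]
            omega
          · exact hx
        have hu' := h4 u hu h3.1
        have hw' := h4 w hw h3.2.1
        have := h3.2.2 (hu'.trans hw'.symm)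
        rw [hu'] at this
        exact this
      · rw [if_pos hv, if_neg hv']
        have := hF.2.2 hv
        rw [Finsupp.mem_support_iff] at this
        omega
    · rw [if_neg hv]
      split_ifs with hv'
      · have := hF'.2.2 hv'
        rw [Finsupp.mem_support_iff] at this
        omega
      · exact Nat.zero_le _

lemma good_ex {G : SimpleGraph V} {k : ℕ} {U : Finset V} (hU : U ∈ indFam G (k + 1)) :
    Good (indFam G k) (ex U) := by
  intro C hC
  -- a first element of `C` in `U`
  have key : ∀ W : Finset V, W ⊆ U → k ≤ W.card → ∃ u ∈ W, u ∈ C := by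
    intro W hW hk
    obtain ⟨F, hF, hFc⟩ := Finset.exists_subset_card_eq hk
    obtain ⟨v, hv, hvC⟩ := hC F ⟨indep_mono hU.1 (hF.trans hW), hFc⟩
    exact ⟨v, hF hv, hvC⟩
  obtain ⟨u, huU, huC⟩ := key U subset_rfl (by rw [hU.2]; omega)
  obtain ⟨v, hvU, hvC⟩ := key (U.erase u) (Finset.erase_subset _ _) (by
    rw [Finset.card_erase_of_mem huU, hU.2]; omega)
  refine ⟨u, huC, v, hvC, ?_⟩
  intro x
  rw [Finset.mem_erase] at hvU
  rw [Finsupp.add_apply, Finsupp.single_apply, Finsupp.single_apply, ex_apply]
  by_cases hux : u = x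
  · have hvx : v ≠ x := fun h => hvU.1 (h.trans hux.symm)
    have hxU : x ∈ U := hux ▸ huU
    simp [hux, hvx, hxU]
  · by_cases hvx : v = x
    · have hxU : x ∈ U := hvx ▸ hvU.2
      simp [hux, hvx, hxU]
    · simp [hux, hvx]

lemma good_le_ex {G : SimpleGraph V} {k : ℕ} (hk : 1 ≤ k) {U : Finset V}
    (hU : U ∈ indFam G (k + 1)) {m : V →₀ ℕ} (hm : Good (indFam G k) m) (hmU : m ≤ ex U) :
    m = ex U := by
  by_contra hne
  obtain ⟨v, hv⟩ : ∃ v, m v ≠ ex U v := by
    by_contra hcon
    push Not at hcon
    exact hne (Finsupp.ext hcon)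
  have hlt : m v < ex U v := lt_of_le_of_ne (hmU v) hv
  rw [ex_apply] at hlt
  have hvU : v ∈ U := by
    by_contra hvU
    rw [if_neg hvU] at hlt
    omega
  rw [if_pos hvU] at hlt
  obtain ⟨w, hw⟩ : (U.erase v).Nonempty := by
    rw [← Finset.card_pos, Finset.card_erase_of_mem hvU, hU.2]
    omega
  obtain ⟨x, hx, y, hy, hxy⟩ := hm ((U : Set V)ᶜ ∪ {v, w}) (by
    intro F hF
    by_contra hcon
    push Not at hcon
    have hsub : F ⊆ (U.erase v).erase w := by
      intro z hz
      have := hcon z hz
      simp only [Set.mem_union, Set.mem_compl_iff, Finset.mem_coe, Set.mem_insert_iff,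
        Set.mem_singleton_iff, not_or, not_not] at this
      rw [Finset.mem_erase, Finset.mem_erase]
      exact ⟨this.2.2, this.2.1, this.1⟩
    have := Finset.card_le_card hsub
    rw [Finset.card_erase_of_mem hw, Finset.card_erase_of_mem hvU, hU.2, hF.2] at this
    omega)
  have h3 := single_add_single_le hxy
  have h4 : ∀ z, z ∈ ((U : Set V)ᶜ ∪ {v, w}) → 1 ≤ m z → z = w := by
    intro z hz hz1
    have hz2 := hmU z
    rw [ex_apply] at hz2
    rcases hz with hz | hz | hz
    · exfalso
      have : z ∉ U := hz
      rw [if_neg this] at hz2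
      omega
    · exfalso
      rw [hz] at hz1
      omega
    · exact hz
  have hx' := h4 x hx h3.1
  have hy' := h4 y hy h3.2.1
  have h5 := h3.2.2 (hx'.trans hy'.symm)
  rw [hx'] at h5
  have h6 := hmU w
  rw [ex_apply] at h6
  split_ifs at h6 <;> omega

lemma ex_not_sq {G : SimpleGraph V} {k : ℕ} (hk : 2 ≤ k) {U F F' : Finset V}
    (hU : U ∈ indFam G (k + 1)) (hF : F ∈ indFam G k) (hF' : F' ∈ indFam G k) :
    ¬ ex F + ex F' ≤ ex U := by
  intro h
  have hdisj : Disjoint F F' := by
    rw [Finset.disjoint_left]
    intro x hx hx'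
    have := h x
    rw [Finsupp.add_apply, ex_apply, ex_apply, ex_apply, if_pos hx, if_pos hx'] at this
    split_ifs at this <;> omega
  have hsub : F ∪ F' ⊆ U := by
    intro x hx
    have := h x
    rw [Finsupp.add_apply, ex_apply, ex_apply, ex_apply] at this
    by_contra hxU
    rw [if_neg hxU] at this
    rw [Finset.mem_union] at hx
    rcases hx with hx | hx
    · rw [if_pos hx] at this; omega
    · rw [if_pos hx] at this; omega
  have := Finset.card_le_card hsub
  rw [Finset.card_union_of_disjoint hdisj, hF.2, hF'.2, hU.2] at this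
  omega

lemma ex_injective : Function.Injective (ex : Finset V → (V →₀ ℕ)) := by
  intro U U' h
  ext v
  have := DFunLike.congr_fun h v
  rw [ex_apply, ex_apply] at this
  constructor
  · intro hv
    rw [if_pos hv] at this
    by_contra hv'
    rw [if_neg hv'] at this
    omega
  · intro hv
    rw [if_pos hv] at this
    by_contra hv'
    rw [if_neg hv'] at this
    omega

/-- The symbolic defect `sdefect (I, m)`: the minimal number of generators of `I^(m) / I^m`. -/
noncomputable def sdefect {S : Type*} [CommRing S] (I : Ideal S) (m : ℕ) : ℕ :=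
  (⊤ : Submodule S (↥(symbolicPower I m) ⧸
    Submodule.comap (symbolicPower I m).subtype (I ^ m))).spanFinrank


section Main

variable (G : SimpleGraph V) (k : ℕ)

/-- The squarefree monomial of an independent `(k+1)`-set as an element of the symbolic square. -/
noncomputable def gen (K : Type*) [Field K] (U : indFam G (k + 1)) :
    symbolicPower (famIdeal K (indFam G k)) 2 :=
  ⟨monomial (ex U.1) 1, by
    rw [mem_symbolicSq_iff_good]
    intro m hm
    have := support_monomial_subset hm
    rw [Finset.mem_singleton] at this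
    rw [this]
    exact good_ex U.2⟩

/-- The classes of the monomials of independent `(k+1)`-sets generate `I^(2) / I^2`. -/
lemma span_gen_eq_top (c : V → Bool) (hc : ∀ u v, G.Adj u v → c u ≠ c v) :
    Submodule.span (MvPolynomial V K) (Set.range fun U : indFam G (k + 1) =>
      (Submodule.comap (symbolicPower (famIdeal K (indFam G k)) 2).subtype
        (famIdeal K (indFam G k) ^ 2)).mkQ (gen G k K U)) = ⊤ := by
  set I := famIdeal K (indFam G k) with hI
  set J := symbolicPower I 2 with hJ
  set N := Submodule.comap J.subtype (I ^ 2) with hN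
  rw [eq_top_iff]
  rintro x -
  obtain ⟨⟨f, hf⟩, rfl⟩ := N.mkQ_surjective x
  have hgood := (mem_symbolicSq_iff_good (indFam G k) f).mp hf
  have hmon : ∀ m ∈ f.support, monomial m (f.coeff m) ∈ J := by
    intro m hm
    rw [hJ, hI, mem_symbolicSq_iff_good]
    intro m' hm'
    have := support_monomial_subset hm'
    rw [Finset.mem_singleton] at this
    rw [this]
    exact hgood m hm
  have hsum : (⟨f, hf⟩ : J) = ∑ m ∈ f.support.attach, ⟨monomial m.1 (f.coeff m.1),
      hmon m.1 m.2⟩ := by
    apply Subtype.ext
    rw [AddSubmonoidClass.coe_finsetSum]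
    simp only
    rw [Finset.sum_attach f.support (fun m => monomial m (f.coeff m))]
    exact (support_sum_monomial_coeff f).symm
  rw [hsum, map_sum]
  apply Submodule.sum_mem
  rintro ⟨m, hm⟩ -
  rcases good_cases c hc (hgood m hm) with ⟨U, hU, hUm⟩ | ⟨F, hF, F', hF', hFm⟩
  · have h1 : (⟨monomial m (f.coeff m), hmon m hm⟩ : J) =
        (monomial (m - ex U) (f.coeff m) : MvPolynomial V K) • gen G k K ⟨U, hU⟩ := by
      apply Subtype.ext
      simp only [gen, Submodule.coe_smul, smul_eq_mul, monomial_mul, mul_one]
      rw [tsub_add_cancel_of_le hUm]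
    rw [h1, map_smul]
    exact Submodule.smul_mem _ _ (Submodule.subset_span ⟨⟨U, hU⟩, rfl⟩)
  · have h1 : N.mkQ (⟨monomial m (f.coeff m), hmon m hm⟩ : J) = 0 := by
      rw [Submodule.mkQ_apply, Submodule.Quotient.mk_eq_zero, hN, Submodule.mem_comap]
      simp only [Submodule.subtype_apply]
      rw [hI, mem_sq_famIdeal]
      intro m' hm'
      have := support_monomial_subset hm'
      rw [Finset.mem_singleton] at this
      rw [this]
      exact ⟨F, hF, F', hF', hFm⟩
    rw [h1]
    exact Submodule.zero_mem _

/-- The coefficient of the monomial of an independent `(k+1)`-set in a product. -/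
lemma coeff_mul_of_mem (hk : 1 ≤ k) (U : indFam G (k + 1)) (g f : MvPolynomial V K)
    (hf : f ∈ symbolicPower (famIdeal K (indFam G k)) 2) :
    coeff (ex U.1) (g * f) = constantCoeff g * coeff (ex U.1) f := by
  rw [coeff_mul]
  rw [Finset.sum_eq_single (0, ex U.1)]
  · rfl
  · rintro ⟨a, b⟩ hab hne
    rw [Finset.HasAntidiagonal.mem_antidiagonal] at hab
    by_cases hb : b ∈ f.support
    · exfalso
      have hgood := (mem_symbolicSq_iff_good (indFam G k) f).mp hf b hb
      have hle : b ≤ ex U.1 := by
        rw [← hab]
        exact le_add_self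
      have := good_le_ex hk U.2 hgood hle
      apply hne
      rw [Prod.mk.injEq]
      refine ⟨?_, this⟩
      rw [this] at hab
      simpa using hab
    · rw [notMem_support_iff] at hb
      simp only
      rw [hb, mul_zero]
  · intro h
    exfalso
    apply h
    rw [Finset.HasAntidiagonal.mem_antidiagonal]
    simp

lemma coeff_eq_zero_of_mem_sq (hk : 2 ≤ k) (U : indFam G (k + 1)) (f : MvPolynomial V K)
    (hf : f ∈ famIdeal K (indFam G k) ^ 2) : coeff (ex U.1) f = 0 := by
  by_contra hne
  rw [mem_sq_famIdeal] at hf
  obtain ⟨F, hF, F', hF', hle⟩ := hf (ex U.1) (by rwa [mem_support_iff])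
  exact ex_not_sq hk U.2 hF hF' hle

/-- A set of generators of `I^(2) / I^2` has at least as many elements as there are independent
`(k+1)`-sets. -/
lemma card_le_of_span [Fintype V] (hk : 2 ≤ k) :
    ∀ T : Finset (↥(symbolicPower (famIdeal K (indFam G k)) 2) ⧸
      Submodule.comap (symbolicPower (famIdeal K (indFam G k)) 2).subtype
        (famIdeal K (indFam G k) ^ 2)),
    Submodule.span (MvPolynomial V K) (T : Set
      (↥(symbolicPower (famIdeal K (indFam G k)) 2) ⧸
      Submodule.comap (symbolicPower (famIdeal K (indFam G k)) 2).subtype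
        (famIdeal K (indFam G k) ^ 2))) = ⊤ →
    (indFam G (k + 1)).ncard ≤ T.card := by
  classical
  set I := famIdeal K (indFam G k) with hI
  set J := symbolicPower I 2 with hJ
  set N := Submodule.comap J.subtype (I ^ 2) with hN
  intro T hT
  have hfin : Finite (indFam G (k + 1)) := inferInstance
  have := Fintype.ofFinite (indFam G (k + 1))
  let _ : Module (MvPolynomial V K) (indFam G (k + 1) → K) :=
    Module.compHom _ (constantCoeff : MvPolynomial V K →+* K)
  have hsmul : ∀ (g : MvPolynomial V K) (y : indFam G (k + 1) → K),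
      g • y = (constantCoeff g) • y := fun g y => rfl
  let φ : J →ₗ[MvPolynomial V K] (indFam G (k + 1) → K) :=
    { toFun := fun f U => coeff (ex U.1) f.1
      map_add' := by
        intro f g
        ext U
        simp
      map_smul' := by
        intro g f
        ext U
        rw [RingHom.id_apply, hsmul]
        simp only [Submodule.coe_smul, smul_eq_mul, Pi.smul_apply]
        exact coeff_mul_of_mem G k (by omega) U g f.1 f.2 }
  have hφN : N ≤ LinearMap.ker φ := by
    intro f hf
    rw [LinearMap.mem_ker]
    ext U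
    exact coeff_eq_zero_of_mem_sq G k hk U f.1 hf
  let ψ := N.liftQ φ hφN
  have hψ : ∀ f : J, ψ (N.mkQ f) = φ f := fun f => rfl
  have hsurj : Function.Surjective ψ := by
    intro y
    refine ⟨N.mkQ (∑ U, (C (y U) : MvPolynomial V K) • gen G k K U), ?_⟩
    rw [hψ, map_sum]
    ext U
    rw [Finset.sum_apply, Finset.sum_eq_single U]
    · rw [map_smul, hsmul, constantCoeff_C]
      show y U • (coeff (ex U.1) (monomial (ex U.1) (1 : K))) = y U
      rw [coeff_monomial, if_pos rfl, smul_eq_mul, mul_one]
    · intro U' _ hne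
      rw [map_smul, hsmul, constantCoeff_C]
      show y U' • (coeff (ex U.1) (monomial (ex U'.1) (1 : K))) = 0
      rw [coeff_monomial, if_neg, smul_zero]
      intro h
      exact hne (Subtype.ext (ex_injective h))
    · intro h
      exact absurd (Finset.mem_univ U) h
  have hspan : Submodule.span K (((T.image ψ : Finset _) : Set (indFam G (k + 1) → K))) = ⊤ := by
    rw [eq_top_iff]
    rintro y -
    obtain ⟨x, rfl⟩ := hsurj y
    have hx : x ∈ Submodule.span (MvPolynomial V K) (T : Set (↥J ⧸ N)) := by
      rw [hT]; trivial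
    induction hx using Submodule.span_induction with
    | mem x hx =>
      apply Submodule.subset_span
      rw [Finset.coe_image]
      exact ⟨x, hx, rfl⟩
    | zero => rw [map_zero]; exact Submodule.zero_mem _
    | add x y _ _ hx hy => rw [map_add]; exact Submodule.add_mem _ hx hy
    | smul a x _ hx =>
      rw [map_smul, hsmul]
      exact Submodule.smul_mem _ _ hx
  have h1 : Module.finrank K (indFam G (k + 1) → K) ≤ (T.image ψ).card := by
    have := finrank_span_finset_le_card (R := K) (T.image ψ)
    rwa [Set.finrank, hspan, finrank_top] at this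
  rw [Module.finrank_fintype_fun_eq_card] at h1
  rw [← Nat.card_coe_set_eq, Nat.card_eq_fintype_card]
  exact h1.trans Finset.card_image_le

/-- **Main theorem.**  For a bipartite graph `G` and `k ≥ 2`, the second symbolic defect of the
ideal generated by the monomials of the independent `k`-sets is the number of independent
`(k+1)`-sets. -/
theorem sdefect_eq [Fintype V] (c : V → Bool) (hc : ∀ u v, G.Adj u v → c u ≠ c v) (hk : 2 ≤ k) :
    sdefect (famIdeal K (indFam G k)) 2 = (indFam G (k + 1)).ncard := by
  classical
  have hspan := span_gen_eq_top (K := K) G k c hc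
  apply le_antisymm
  · unfold sdefect
    rw [← hspan]
    refine (Submodule.spanFinrank_span_le_ncard_of_finite (Set.finite_range _)).trans ?_
    rw [← Set.image_univ]
    refine (Set.ncard_image_le (Set.toFinite _)).trans ?_
    rw [Set.ncard_univ, Nat.card_coe_set_eq]
  · have hfg : (⊤ : Submodule (MvPolynomial V K) (↥(symbolicPower (famIdeal K (indFam G k)) 2) ⧸
        Submodule.comap (symbolicPower (famIdeal K (indFam G k)) 2).subtype
        (famIdeal K (indFam G k) ^ 2))).FG := by
      rw [← hspan]
      exact Submodule.fg_span (Set.finite_range _)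
    obtain ⟨s, hs, hsc⟩ := hfg.exists_span_finset_card_eq_spanFinrank
    unfold sdefect
    rw [← hs]
    exact card_le_of_span G k hk s hsc

end Main

end Pool.Agent.Helper33
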