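import Pool.Agent.Helper33.IndepLattice

/-!
# The symbolic square of a squarefree monomial ideal
-/

namespace Pool.Agent.Helper33

open MvPolynomial Finset
open scoped Pointwise

variable {V : Type*} [DecidableEq V] {K : Type*} [Field K]

/-- The exponent vector of the squarefree monomial with support `F`. -/
noncomputable def ex (F : Finset V) : V →₀ ℕ := ∑ v ∈ F, Finsupp.single v 1

lemma ex_apply (F : Finset V) (v : V) : ex F v = if v ∈ F then 1 else 0 := by
  simp [ex, Finsupp.finsetSum_apply, Finsupp.single_apply]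

lemma prod_X_eq (F : Finset V) : ∏ v ∈ F, (X v : MvPolynomial V K) = monomial (ex F) 1 := by
  induction F using Finset.induction_on with
  | empty => simp [ex]
  | insert a s ha ih =>
    rw [Finset.prod_insert ha, ih]
    simp only [ex, Finset.sum_insert ha, X]
    rw [monomial_mul, one_mul]

/-- The ideal generated by the squarefree monomials with supports in `𝓕`. -/
noncomputable def famIdeal (K : Type*) [Field K] (𝓕 : Set (Finset V)) : Ideal (MvPolynomial V K) :=
  Ideal.span {p | ∃ F ∈ 𝓕, p = ∏ v ∈ F, X v}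

lemma famIdeal_eq (𝓕 : Set (Finset V)) :
    famIdeal K 𝓕 = Ideal.span ((fun s => monomial s (1 : K)) '' (ex '' 𝓕)) := by
  unfold famIdeal
  congr 1
  ext p
  simp only [Set.mem_ofPred_eq, Set.mem_image, exists_exists_and_eq_and]
  constructor
  · rintro ⟨F, hF, rfl⟩
    exact ⟨F, hF, (prod_X_eq F).symm⟩
  · rintro ⟨F, hF, rfl⟩
    exact ⟨F, hF, (prod_X_eq F).symm⟩

lemma mem_sq_famIdeal (𝓕 : Set (Finset V)) (f : MvPolynomial V K) :
    f ∈ famIdeal K 𝓕 ^ 2 ↔ ∀ m ∈ f.support, ∃ F ∈ 𝓕, ∃ F' ∈ 𝓕, ex F + ex F' ≤ m := by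
  rw [famIdeal_eq, sq, Ideal.span_mul_span']
  have : ((fun s => monomial s (1 : K)) '' (ex '' 𝓕)) * ((fun s => monomial s (1 : K)) '' (ex '' 𝓕))
      = (fun s => monomial s (1 : K)) '' {m | ∃ F ∈ 𝓕, ∃ F' ∈ 𝓕, m = ex F + ex F'} := by
    ext p
    simp only [Set.mem_mul, Set.mem_image, exists_exists_and_eq_and, Set.mem_ofPred_eq]
    constructor
    · rintro ⟨F, hF, F', hF', rfl⟩
      exact ⟨ex F + ex F', ⟨F, hF, F', hF', rfl⟩, by rw [monomial_mul, one_mul]⟩
    · rintro ⟨m, ⟨F, hF, F', hF', rfl⟩, rfl⟩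
      exact ⟨F, hF, F', hF', by rw [monomial_mul, one_mul]⟩
  rw [this, mem_ideal_span_monomial_image]
  constructor
  · intro h m hm
    obtain ⟨s, ⟨F, hF, F', hF', rfl⟩, hs⟩ := h m hm
    exact ⟨F, hF, F', hF', hs⟩
  · intro h m hm
    obtain ⟨F, hF, F', hF', hs⟩ := h m hm
    exact ⟨_, ⟨F, hF, F', hF', rfl⟩, hs⟩

/-- The ideal generated by a set of variables. -/
noncomputable def varIdeal (K : Type*) [Field K] (C : Set V) : Ideal (MvPolynomial V K) :=
  Ideal.span ((X : V → MvPolynomial V K) '' C)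

lemma varIdeal_eq_ker (C : Set V) [DecidablePred (· ∈ C)] : varIdeal K C = RingHom.ker
    (aeval (fun v => if v ∈ C then (0 : MvPolynomial V K) else X v) :
      MvPolynomial V K →ₐ[K] MvPolynomial V K).toRingHom := by
  set φ := (aeval (fun v => if v ∈ C then (0 : MvPolynomial V K) else X v) :
      MvPolynomial V K →ₐ[K] MvPolynomial V K) with hφ
  have key : ∀ f : MvPolynomial V K, f - φ f ∈ varIdeal K C := by
    intro f
    induction f using MvPolynomial.induction_on with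
    | C a => simp [hφ]
    | add p q hp hq =>
      rw [map_add, add_sub_add_comm]
      exact Ideal.add_mem _ hp hq
    | mul_X p v hp =>
      rw [map_mul]
      have h1 : p * X v - φ p * φ (X v) = (p - φ p) * X v + φ p * (X v - φ (X v)) := by ring
      rw [h1]
      refine Ideal.add_mem _ (Ideal.mul_mem_right _ _ hp) (Ideal.mul_mem_left _ _ ?_)
      rw [hφ, aeval_X]
      split_ifs with hv
      · rw [sub_zero]
        exact Ideal.subset_span ⟨v, hv, rfl⟩
      · rw [sub_self]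
        exact Ideal.zero_mem _
  apply le_antisymm
  · unfold varIdeal
    rw [Ideal.span_le]
    rintro _ ⟨v, hv, rfl⟩
    simp only [SetLike.mem_coe, RingHom.mem_ker]
    show φ (X v) = 0
    rw [hφ, aeval_X, if_pos hv]
  · intro f hf
    rw [RingHom.mem_ker] at hf
    have hf' : φ f = 0 := hf
    have := key f
    rwa [hf', sub_zero] at this

lemma varIdeal_isPrime (C : Set V) : (varIdeal K C).IsPrime := by
  classical
  rw [varIdeal_eq_ker]
  exact RingHom.ker_isPrime _

lemma mem_sq_varIdeal (C : Set V) (f : MvPolynomial V K) :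
    f ∈ varIdeal K C ^ 2 ↔ ∀ m ∈ f.support, ∃ u ∈ C, ∃ v ∈ C,
      Finsupp.single u 1 + Finsupp.single v 1 ≤ m := by
  unfold varIdeal
  rw [sq, Ideal.span_mul_span']
  have : ((X : V → MvPolynomial V K) '' C) * ((X : V → MvPolynomial V K) '' C)
      = (fun s => monomial s (1 : K)) ''
        {m | ∃ u ∈ C, ∃ v ∈ C, m = Finsupp.single u 1 + Finsupp.single v 1} := by
    ext p
    simp only [Set.mem_mul, Set.mem_image, exists_exists_and_eq_and, Set.mem_ofPred_eq]
    constructor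
    · rintro ⟨F, hF, F', hF', rfl⟩
      exact ⟨_, ⟨F, hF, F', hF', rfl⟩, by simp only [X]; rw [monomial_mul, one_mul]⟩
    · rintro ⟨m, ⟨F, hF, F', hF', rfl⟩, rfl⟩
      exact ⟨F, hF, F', hF', by simp only [X]; rw [monomial_mul, one_mul]⟩
  rw [this, mem_ideal_span_monomial_image]
  constructor
  · intro h m hm
    obtain ⟨s, ⟨F, hF, F', hF', rfl⟩, hs⟩ := h m hm
    exact ⟨F, hF, F', hF', hs⟩
  · intro h m hm
    obtain ⟨F, hF, F', hF', hs⟩ := h m hm
    exact ⟨_, ⟨F, hF, F', hF', rfl⟩, hs⟩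

/-- The `m`-th symbolic power: the intersection of the `m`-th powers of the minimal primes. -/
noncomputable def symbolicPower {S : Type*} [CommRing S] (I : Ideal S) (m : ℕ) : Ideal S :=
  ⨅ P ∈ I.minimalPrimes, P ^ m

/-- `C` meets all members of `𝓕`. -/
def Cover (𝓕 : Set (Finset V)) (C : Set V) : Prop := ∀ F ∈ 𝓕, ∃ v ∈ F, v ∈ C

lemma famIdeal_le_varIdeal {𝓕 : Set (Finset V)} {C : Set V} (hC : Cover 𝓕 C) :
    famIdeal K 𝓕 ≤ varIdeal K C := by
  unfold famIdeal
  rw [Ideal.span_le]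
  rintro _ ⟨F, hF, rfl⟩
  obtain ⟨v, hv, hvC⟩ := hC F hF
  rw [SetLike.mem_coe, ← Finset.mul_prod_erase _ _ hv]
  exact Ideal.mul_mem_right _ _ (Ideal.subset_span ⟨v, hvC, rfl⟩)

lemma mem_symbolicSq (𝓕 : Set (Finset V)) (f : MvPolynomial V K) :
    f ∈ symbolicPower (famIdeal K 𝓕) 2 ↔ ∀ C, Cover 𝓕 C → f ∈ varIdeal K C ^ 2 := by
  unfold symbolicPower
  simp only [Ideal.mem_iInf]
  constructor
  · intro h C hC
    have := varIdeal_isPrime (K := K) C
    obtain ⟨P, hP, hPC⟩ := Ideal.exists_minimalPrimes_le (famIdeal_le_varIdeal (K := K) hC)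
    exact Ideal.pow_right_mono hPC 2 (h P hP)
  · intro h P hP
    have hPp : P.IsPrime := hP.1.1
    have hIP : famIdeal K 𝓕 ≤ P := hP.1.2
    set C : Set V := {v | (X v : MvPolynomial V K) ∈ P} with hC
    have hcov : Cover 𝓕 C := by
      intro F hF
      have h1 : ∏ v ∈ F, (X v : MvPolynomial V K) ∈ P := hIP (Ideal.subset_span ⟨F, hF, rfl⟩)
      rw [Ideal.IsPrime.prod_mem_iff] at h1
      obtain ⟨v, hv, hvP⟩ := h1
      exact ⟨v, hv, hvP⟩
    have hle : varIdeal K C ≤ P := by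
      unfold varIdeal
      rw [Ideal.span_le]
      rintro _ ⟨v, hv, rfl⟩
      exact hv
    have hge : P ≤ varIdeal K C :=
      hP.2 ⟨varIdeal_isPrime C, famIdeal_le_varIdeal hcov⟩ hle
    have : P = varIdeal K C := le_antisymm hge hle
    rw [this]
    exact h C hcov

/-- The exponents that satisfy the order-two condition at all covers. -/
def Good (𝓕 : Set (Finset V)) (m : V →₀ ℕ) : Prop :=
  ∀ C, Cover 𝓕 C → ∃ u ∈ C, ∃ v ∈ C, Finsupp.single u 1 + Finsupp.single v 1 ≤ m

lemma mem_symbolicSq_iff_good (𝓕 : Set (Finset V)) (f : MvPolynomial V K) :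
    f ∈ symbolicPower (famIdeal K 𝓕) 2 ↔ ∀ m ∈ f.support, Good 𝓕 m := by
  rw [mem_symbolicSq]
  simp only [mem_sq_varIdeal, Good]
  exact ⟨fun h m hm C hC => h C hC m hm, fun h C hC m hm => h m hm C hC⟩

end Pool.Agent.Helper33
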