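import Pool.Agent.Helper33.CutSystem

/-!
# The cuts of a tree of bounded degree form a cut system
-/

namespace Pool.Agent.Helper33

open Finset SimpleGraph

variable {V : Type*}

lemma reachable_induct {G : SimpleGraph V} {P : V → Prop} {a b : V}
    (hP : ∀ x y, G.Adj x y → P x → P y) (ha : P a) (h : G.Reachable a b) : P b := by
  obtain ⟨p⟩ := h
  induction p with
  | nil => exact ha
  | cons h p ih => exact ih (hP _ _ h ha)

/-- In a tree, every vertex is on one of the two sides of an edge. -/
lemma side_cover {T : SimpleGraph V} (hT : T.IsTree) {u v : V} (w : V) :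
    (T.deleteEdges {s(u, v)}).Reachable u w ∨ (T.deleteEdges {s(u, v)}).Reachable v w := by
  refine reachable_induct (G := T) (P := fun w => (T.deleteEdges {s(u, v)}).Reachable u w ∨
    (T.deleteEdges {s(u, v)}).Reachable v w) ?_ (Or.inl (Reachable.refl u))
    (hT.connected.preconnected u w)
  intro x y hxy hx
  by_cases he : s(x, y) = s(u, v)
  · rw [Sym2.eq_iff] at he
    rcases he with ⟨rfl, rfl⟩ | ⟨rfl, rfl⟩
    · exact Or.inr (Reachable.refl _)
    · exact Or.inl (Reachable.refl _)
  · have hadj : (T.deleteEdges {s(u, v)}).Adj x y := by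
      rw [deleteEdges_adj]
      exact ⟨hxy, by simpa using he⟩
    rcases hx with hx | hx
    · exact Or.inl (hx.trans hadj.reachable)
    · exact Or.inr (hx.trans hadj.reachable)

lemma side_disj {T : SimpleGraph V} (hT : T.IsTree) {u v : V} (huv : T.Adj u v) (w : V)
    (h1 : (T.deleteEdges {s(u, v)}).Reachable u w)
    (h2 : (T.deleteEdges {s(u, v)}).Reachable v w) : False := by
  have hb : T.IsBridge s(u, v) := isAcyclic_iff_forall_adj_isBridge.mp hT.isAcyclic huv
  rw [isBridge_iff] at hb
  exact hb (h1.trans h2.symm)

/-- In a tree, every vertex other than `u` is in a branch at `u`. -/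
lemma branch_cover {T : SimpleGraph V} (hT : T.IsTree) (u w : V) :
    w = u ∨ ∃ v, T.Adj u v ∧ (T.deleteEdges {s(u, v)}).Reachable v w := by
  refine reachable_induct (G := T) (P := fun w => w = u ∨ ∃ v, T.Adj u v ∧
    (T.deleteEdges {s(u, v)}).Reachable v w) ?_ (Or.inl rfl)
    (hT.connected.preconnected u w)
  intro x y hxy hx
  rcases hx with rfl | ⟨v, hv, hvx⟩
  · exact Or.inr ⟨y, hxy, Reachable.refl _⟩
  · by_cases he : s(x, y) = s(u, v)
    · rw [Sym2.eq_iff] at he
      rcases he with ⟨rfl, rfl⟩ | ⟨rfl, rfl⟩
      · exact Or.inr ⟨_, hv, Reachable.refl _⟩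
      · exact Or.inl rfl
    · have hadj : (T.deleteEdges {s(u, v)}).Adj x y := by
        rw [deleteEdges_adj]
        exact ⟨hxy, by simpa using he⟩
      exact Or.inr ⟨v, hv, hvx.trans hadj.reachable⟩

/-- In a tree, different branches at `u` are disjoint. -/
lemma branch_disj {T : SimpleGraph V} (hT : T.IsTree) {u v v' w : V} (hv : T.Adj u v)
    (hv' : T.Adj u v') (hne : v ≠ v')
    (h1 : (T.deleteEdges {s(u, v)}).Reachable v w)
    (h2 : (T.deleteEdges {s(u, v')}).Reachable v' w) : False := by
  have key : (T.deleteEdges {s(u, v)}).Reachable v w ∧ (T.deleteEdges {s(u, v')}).Reachable v w := by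
    refine reachable_induct (G := T.deleteEdges {s(u, v)})
      (P := fun w => (T.deleteEdges {s(u, v)}).Reachable v w ∧
        (T.deleteEdges {s(u, v')}).Reachable v w) ?_ ⟨Reachable.refl _, Reachable.refl _⟩ h1
    rintro x y hxy ⟨hx1, hx2⟩
    have hy1 : (T.deleteEdges {s(u, v)}).Reachable v y := hx1.trans hxy.reachable
    refine ⟨hy1, ?_⟩
    have hxu : x ≠ u := by
      rintro rfl
      exact side_disj hT hv _ (Reachable.refl _) hx1
    have hyu : y ≠ u := by
      rintro rfl
      exact side_disj hT hv _ (Reachable.refl _) hy1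
    have hadj : (T.deleteEdges {s(u, v')}).Adj x y := by
      rw [deleteEdges_adj] at hxy ⊢
      refine ⟨hxy.1, ?_⟩
      simp only [Set.mem_singleton_iff, Sym2.eq_iff]
      rintro (⟨h, -⟩ | ⟨-, h⟩)
      · exact hxu h
      · exact hyu h
    exact hx2.trans hadj.reachable
  have huv : (T.deleteEdges {s(u, v')}).Adj u v := by
    rw [deleteEdges_adj]
    refine ⟨hv, ?_⟩
    simp only [Set.mem_singleton_iff, Sym2.eq_iff]
    rintro (⟨-, h⟩ | ⟨h, h'⟩)
    · exact hne h
    · exact hv.ne h'.symm
  exact side_disj hT hv' w (huv.reachable.trans key.2) h2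

/-- The sink lemma. -/
lemma exists_sink [Finite V] {T : SimpleGraph V} (hT : T.IsTree) (Q : V → V → Prop)
    (hQ : ∀ u v, T.Adj u v → Q u v ∨ Q v u) : ∃ u, ∀ v, T.Adj u v → Q u v := by
  classical
  have := Fintype.ofFinite V
  by_contra hcon
  push Not at hcon
  choose g hg hgQ using hcon
  have hcard := hT.card_edgeFinset
  have hinj : Function.Injective (fun u => s(u, g u)) := by
    intro u v huv
    simp only [Sym2.eq_iff] at huv
    rcases huv with ⟨h, -⟩ | ⟨h1, h2⟩
    · exact h
    · exfalso
      rcases hQ u (g u) (hg u) with h | h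
      · exact hgQ u h
      · rw [h2, h1] at h
        exact hgQ v h
  have hle : Fintype.card V ≤ T.edgeFinset.card := by
    rw [← Finset.card_univ, ← Finset.card_image_of_injective _ hinj]
    apply Finset.card_le_card
    intro e he
    simp only [Finset.mem_image, Finset.mem_univ, true_and] at he
    obtain ⟨u, rfl⟩ := he
    rw [mem_edgeFinset, mem_edgeSet]
    exact hg u
  omega

open Classical in
/-- The labels on the side of `v` when the edge `uv` is deleted. -/
noncomputable def side {n : ℕ} (T : SimpleGraph V) (l : Fin n → V) (u v : V) : Finset (Fin n) :=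
  Finset.univ.filter (fun x => (T.deleteEdges {s(u, v)}).Reachable v (l x))

lemma mem_side {n : ℕ} (T : SimpleGraph V) (l : Fin n → V) (u v : V) (x : Fin n) :
    x ∈ side T l u v ↔ (T.deleteEdges {s(u, v)}).Reachable v (l x) := by
  simp [side]

lemma side_compl {n : ℕ} {T : SimpleGraph V} (hT : T.IsTree) (l : Fin n → V) {u v : V}
    (huv : T.Adj u v) : (side T l u v)ᶜ = side T l v u := by
  ext x
  rw [Finset.mem_compl, mem_side, mem_side, Sym2.eq_swap (a := v) (b := u)]
  constructor
  · intro h
    exact (side_cover hT (l x)).resolve_right h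
  · intro h h'
    exact side_disj hT huv _ h h'

/-- The cuts of a finite tree of maximum degree at most `r` form a cut system. -/
theorem cutSystem_tree [Finite V] {r n : ℕ} {T : SimpleGraph V} (hT : T.IsTree)
    (hdeg : ∀ v, (T.neighborSet v).ncard ≤ r) (l : Fin n → V) (hl : Function.Injective l) :
    CutSystem r n {A | ∃ u v, T.Adj u v ∧ A = side T l u v} := by
  classical
  refine ⟨?_, ?_⟩
  · rintro A ⟨u, v, huv, rfl⟩
    exact ⟨v, u, huv.symm, side_compl hT l huv⟩
  · intro P hP
    obtain ⟨u, hu⟩ := exists_sink hT (fun u v => P (side T l u v)) (by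
      intro u v huv
      rcases hP (side T l u v) ⟨u, v, huv, rfl⟩ with h | h
      · exact Or.inl h
      · rw [side_compl hT l huv] at h
        exact Or.inr h)
    have hfin : (T.neighborSet u).Finite := Set.toFinite _
    refine ⟨hfin.toFinset.image (fun v => side T l u v), ?_, ?_, ?_⟩
    · refine (Finset.card_image_le).trans ?_
      rw [← Set.ncard_eq_toFinset_card]
      exact hdeg u
    · intro A hA
      simp only [Finset.mem_image, Set.Finite.mem_toFinset, mem_neighborSet] at hA
      obtain ⟨v, hv, rfl⟩ := hA
      exact ⟨⟨u, v, hv, rfl⟩, hu v hv⟩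
    · intro X
      set S := hfin.toFinset.image (fun v => side T l u v) with hS
      have hdisj : (S : Set (Finset (Fin n))).PairwiseDisjoint (fun A => X ∩ A) := by
        intro A hA B hB hAB
        simp only [hS, Finset.coe_image, Set.Finite.coe_toFinset, Set.mem_image,
          mem_neighborSet] at hA hB
        obtain ⟨v, hv, rfl⟩ := hA
        obtain ⟨v', hv', rfl⟩ := hB
        have hvv' : v ≠ v' := by
          rintro rfl; exact hAB rfl
        rw [Function.onFun, Finset.disjoint_left]
        intro x hx hx'
        simp only [Finset.mem_inter, mem_side] at hx hx'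
        exact branch_disj hT hv hv' hvv' hx.2 hx'.2
      rw [← Finset.card_biUnion hdisj]
      constructor
      · apply Finset.card_le_card
        intro x hx
        simp only [Finset.mem_biUnion, Finset.mem_inter] at hx
        obtain ⟨A, -, hx, -⟩ := hx
        exact hx
      · have h1 : (X \ S.biUnion (fun A => X ∩ A)).card ≤ 1 := by
          rw [Finset.card_le_one]
          intro a ha b hb
          have key : ∀ x, x ∈ X \ S.biUnion (fun A => X ∩ A) → l x = u := by
            intro x hx
            simp only [Finset.mem_sdiff, Finset.mem_biUnion, Finset.mem_inter, not_exists,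
              not_and] at hx
            rcases branch_cover hT u (l x) with h | ⟨v, hv, hvx⟩
            · exact h
            · exfalso
              refine hx.2 (side T l u v) ?_ hx.1 ((mem_side _ _ _ _ _).mpr hvx)
              simp only [hS, Finset.mem_image, Set.Finite.mem_toFinset, mem_neighborSet]
              exact ⟨v, hv, rfl⟩
          exact hl ((key a ha).trans (key b hb).symm)
        have h2 := Finset.card_le_card_sdiff_add_card (t := S.biUnion (fun A => X ∩ A)) (s := X)
        omega

end Pool.Agent.Helper33
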